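import Pool.Agent.Lib.DS.C.Spec

/-!
# Part C for SqN, module C1: statement `DS.S_C1`
-/

set_option autoImplicit false

open Filter Topology
open scoped Pointwise

noncomputable section

namespace Pool.Agent.DS.C

open Pool.Agent.MuZ Pool.Agent.FW NumberField Pool.Agent.DN Pool.Agent.DN.C Pool.Agent.DS
open Pool.Agent.DI (io ofC io_inj exists_io io_ofC ofC_io VP MP UP TP ex sqr sqr_sq kap)

theorem tC1 (hV : S_Val) (hH : S_Hom) (hD : S_Den) (h4 : S_C4) (h5 : S_R1) (hC : S_Cnd) :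
    S_C1 := by
  intro n t _ F N m b hm hb hL a b' c d hG
  obtain ⟨hF30, -⟩ := hC n t F m b hm hb
  have hlev : Dk n t * F ^ 2 * (NI m * NI b) ^ 3 ∣ N := by
    have h := hL.dvd
    unfold levg at h
    rwa [Finset.prod_singleton] at h
  have hνM : NI m ∣ N := by
    refine dvd_trans ?_ hlev
    exact ⟨Dk n t * F ^ 2 * (NI m ^ 2 * NI b ^ 3), by ring⟩
  have hfM : F ∣ N := by
    refine dvd_trans ?_ hlev
    exact ⟨Dk n t * F * (NI m * NI b) ^ 3, by ring⟩
  have hN2 : 2 ≤ N := le_trans (le_trans (by norm_num) hF30) (Nat.le_of_dvd hL.pos hfM)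
  obtain ⟨ha, hd, haM, hdM, -, hbd, hden⟩ := hD N (NI m) a b' c d hN2 hνM hG
  have haf : IsCoprime a ((F : ℕ) : ℤ) :=
    haM.of_isCoprime_of_dvd_right (Int.natCast_dvd_natCast.2 hfM)
  obtain ⟨-, -, hH3, -⟩ := hH n t F hm.pos hm.two hm.dvd
  have hab : FBg F (sp (a : OO n t) * b) := (hH3 m b hm hb a 0 ha haf).1
  refine ⟨ha, hd, haM, hdM, hab, fun r hr hr1 => ?_⟩
  have hr2 := hden r hr hr1
  refine ⟨hr2, ?_⟩
  have h0 : (0 : ℚ).den.Coprime (NI m) := by
    rw [Rat.den_zero]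
    exact Nat.coprime_one_left _
  have hbd' : (b' / d : ℚ).den.Coprime (NI m) := Nat.Coprime.coprime_dvd_right hνM hbd
  have val : ∀ b₁ : Ideal (OO n t), FBg F b₁ → ∀ s : ℚ, s.den.Coprime (NI m) →
      Tendsto (fun y : ℝ => ThM F m b₁ ((s : ℂ) + y * Complex.I)) (𝓝[>] 0) (𝓝 (hM F m b₁ s)) ∧
      io (etaM F m b₁ s) = hM F m b₁ s := by
    intro b₁ hb₁ s hs
    have h := h4 n t F m b₁ hm hb₁ s.num s.den s.den_pos hs
    have e : ((s.num : ℚ) / (s.den : ℚ)) = s := Rat.num_div_den s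
    rw [e] at h
    exact ⟨h.1, h.2.1⟩
  obtain ⟨hV1, hV2⟩ := hV n t F N m b hm hb hL
  -- the values of `hS`
  have hSa : ∀ s : ℚ, s.den.Coprime (NI m) →
      hS F m b a s = fr (sp (a : OO n t) * b) / (a * fr b) * hM F m (sp (a : OO n t) * b) s := by
    intro s hs
    have t1 := hV1 a s
    have t2 := ((val _ hab s hs).1).const_mul (fr (sp (a : OO n t) * b) / (a * fr b))
    have e : (fun y : ℝ => fr (sp (a : OO n t) * b) / (a * fr b) *
        ThM F m (sp (a : OO n t) * b) ((s : ℂ) + y * Complex.I)) =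
        fun y : ℝ => ThS F m b a ((s : ℂ) + y * Complex.I) := by
      funext y
      exact ((hH3 m b hm hb a ((s : ℂ) + y * Complex.I) ha haf).2).symm
    rw [e] at t2
    exact tendsto_nhds_unique t1 t2
  obtain ⟨hV3, hV4⟩ := hV2 a b' c d hG 1
  have e1 := hV3 r hr1
  rw [hV4 hd, mul_one, hSa r hr, hSa 0 h0] at e1
  have e2 : hS F m b 1 (mobQ a b' c d r) = io (etaM F m b ((a * r + b') / (c * r + d))) :=
    ((val b hb _ hr2).2).symm
  have e3 : hS F m b 1 (b' / d) = io (etaM F m b (b' / d)) := ((val b hb _ hbd').2).symm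
  rw [e2, e3] at e1
  obtain ⟨-, -, -, -, -, -, -, -, g1, -, -, -, -, -, hfr, -⟩ := hC n t F m b hm hb
  obtain ⟨-, -, -, -, -, -, -, -, g2, -, -, -, -, -, hfr', -⟩ := hC n t F m _ hm hab
  have hrO := (((h5.1 n t).1 b g1).2.2.2 _ g2).1
  apply io_inj
  rw [e1, map_add, map_mul, map_mul, map_sub, map_div₀, map_intCast, map_intCast, hrO,
    (val _ hab r hr).2, (val _ hab 0 h0).2]
  field_simp
  ring

end Pool.Agent.DS.C
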