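import Pool.Agent.Lib.DS.C.Spec

/-! # Part C for SqN (general modulus), module C2: transformation under `Γ_1(N)` -/

set_option autoImplicit false

open Filter Topology
open scoped Pointwise

noncomputable section

namespace Pool.Agent.DS.C

open Pool.Agent.MuZ Pool.Agent.FW NumberField Pool.Agent.DN Pool.Agent.DN.C Pool.Agent.DS
open Pool.Agent.DI (io ofC io_inj exists_io io_ofC ofC_io VP MP UP TP ex sqr sqr_sq kap)

/-- The symbol of an integer which is `1` modulo `4 D`. -/
private theorem C2_eps {n t : ℕ} [SqN n t] (hE : S_Ech) (d : ℤ)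
    (h : (4 * Dk n t : ℤ) ∣ d - 1) : eps n t d = 1 := by
  obtain ⟨-, h2, -, h4⟩ := hE n t
  obtain ⟨g, hg⟩ := h
  have h1 : Odd d := by
    rw [Int.odd_iff]
    have e : d = 2 * (2 * (Dk n t * g)) + 1 := by linarith
    omega
  have h3 : IsCoprime d (Dk n t : ℤ) := ⟨1, -(4 * g), by linarith⟩
  rw [h2 d 1 h1 odd_one h3 ⟨g, hg⟩, h4]

/-- Transformation under `Γ_1(N)`, on the upper half plane. -/
theorem tC2 (hT : S_TrS) (hV : S_Val) (hR : S_Red) (hD : S_Den) (h4 : S_C4) (hE : S_Ech)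
    (hC : S_Cnd) : S_C2 := by
  intro n t _ F N m b hFM hFB hLv a b' c d hG hd z hz
  obtain ⟨hF30, -⟩ := hC n t F m b hFM hFB
  have hlev := hLv.dvd
  have hfM : F ∣ N := by
    refine dvd_trans ?_ hlev
    unfold levg
    exact Dvd.dvd.mul_right (Dvd.dvd.mul_left (dvd_pow_self F two_ne_zero) _) _
  have hDM : 4 * Dk n t ∣ N := by
    refine dvd_trans ?_ hlev
    unfold levg
    refine Dvd.dvd.mul_right ?_ _
    obtain ⟨g, hg⟩ := hFM.two
    refine ⟨g ^ 2, ?_⟩
    rw [hg]
    ring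
  have hmM : NI m ∣ N := by
    refine dvd_trans ?_ hlev
    unfold levg
    refine Dvd.dvd.mul_left ?_ _
    refine dvd_trans ?_ (dvd_pow_self _ three_ne_zero)
    exact dvd_mul_right _ _
  have hN2 : 2 ≤ N := le_trans (le_trans (by norm_num) hF30) (Nat.le_of_dvd hLv.pos hfM)
  obtain ⟨ha0, hd0, _, _, had, hden, _⟩ := hD N 1 a b' c d hN2 (one_dvd _) hG
  have hMa : (N : ℤ) ∣ a - 1 := by
    have h1 : a - 1 = (a * d - 1) - a * (d - 1) := by ring
    rw [h1]
    exact dvd_sub had (Dvd.dvd.mul_left hd a)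
  have hfa : ((F : ℕ) : ℤ) ∣ a - 1 := (Int.natCast_dvd_natCast.2 hfM).trans hMa
  have heps : eps n t d = 1 := by
    refine C2_eps hE d (dvd_trans ?_ hd)
    have h1 := Int.natCast_dvd_natCast.2 hDM
    push_cast at h1
    exact h1
  have hf0 : 0 < F := hFM.pos
  have hmb : m * b ≠ ⊥ := by
    intro h
    rcases Ideal.mul_eq_bot.mp h with h | h
    · exact hFM.ne h
    · exact hFB.ne h
  have hS1 : ThS F m b a = ThM F m b := by
    funext w
    have e1 := (hR n t F (m * b) hf0 hmb a).2.2.2.2.1 1 hfa w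
    have e2 := (hR n t F b hf0 hFB.ne a).2.2.2.2.1 1 hfa (NI m * w)
    unfold ThS ThM
    rw [e1, e2]
  have hS2 : ∀ r : ℚ, hS F m b a r = hM F m b r := by
    intro r
    unfold hS hM
    rw [hS1]
  have hval : ∀ r : ℚ, r.den.Coprime (NI m) → hM F m b r = io (etaM F m b r) := by
    intro r hr
    have h5 := (h4 n t F m b hFM hFB r.num r.den r.den_pos hr).2.1
    rw [Rat.num_div_den] at h5
    exact h5.symm
  have hT1 := hT n t F N m b hFM hFB hLv a b' c d hG 1 z hz
  have hV1 := ((hV n t F N m b hFM hFB hLv).2 a b' c d hG 1).2 hd0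
  rw [hV1, mul_one, heps, hS1, hS2, ThS_one, hS_one] at hT1
  have h6 : mob a b' c d z = (a * z + b') / (c * z + d) := rfl
  rw [h6] at hT1
  have h7 : (b' / d : ℚ).den.Coprime (NI m) := Nat.Coprime.coprime_dvd_right hmM hden
  have h8 : (0 : ℚ).den.Coprime (NI m) := by
    rw [Rat.den_zero]
    exact Nat.coprime_one_left _
  rw [hT1, hval _ h7, hval _ h8, map_sub]
  push_cast
  ring

end Pool.Agent.DS.C
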