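import Pool.Agent.Lib.DS.C.Spec

/-!
# Part C for SqN (general modulus), module C4: `S_C4`
-/

set_option autoImplicit false

open Filter Topology
open scoped Pointwise

noncomputable section

namespace Pool.Agent.DS.C

open Pool.Agent.MuZ Pool.Agent.FW NumberField Pool.Agent.DN Pool.Agent.DN.C Pool.Agent.DS
open Pool.Agent.DI (io ofC io_inj exists_io io_ofC ofC_io VP MP UP TP ex)

theorem tC4 (h4 : S_C4b) (hU : S_Usy) : S_C4 := by
  intro n t _ F m b hm hb c q hq hqm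
  obtain ⟨c1, c2, c3⟩ := h4 n t F m b hm hb c q hq hqm
  refine ⟨c1, c2, fun hbq => ?_⟩
  obtain ⟨U, u1, u2⟩ := hU n t q b hq hb.ne hbq
  obtain ⟨-, v2⟩ := c3 U u1
  have hq0 : (q : ℂ) ≠ 0 := by exact_mod_cast hq.ne'
  have hf0 : ((F : ℕ) : ℂ) ≠ 0 := by exact_mod_cast hm.pos.ne'
  have hq1 : (1 / q : Om) = (q : Om)⁻¹ := one_div _
  rw [v2, u2 (fun u => zet q ^ (c * qN m b (1 + (F : ℕ) * q * u)) *
          gO m b (1 / ((F : ℕ) * q) + u)), hq1]
  congr 1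
  refine Finset.sum_congr rfl fun x _ => Finset.sum_congr rfl fun y _ => ?_
  have e0 : (1 : ℂ) + (F : ℕ) * (toC (⟨x, y⟩ : OO n t)) =
      toC (⟨1 + F * x, F * y⟩ : OO n t) := by
    rw [toC_apply, toC_apply]
    push_cast
    ring
  have e1 : (1 : ℂ) + (F : ℕ) * q * (toC (⟨x, y⟩ : OO n t) / q) =
      toC (⟨1 + F * x, F * y⟩ : OO n t) := by
    rw [← e0]
    field_simp
  have e2 : (1 : ℂ) / ((F : ℕ) * q) + toC (⟨x, y⟩ : OO n t) / q =
      toC (⟨1 + F * x, F * y⟩ : OO n t) / (F * q : ℕ) := by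
    rw [← e0]
    have e3 : ((F * q : ℕ) : ℂ) = ((F : ℕ) : ℂ) * q := by push_cast; ring
    rw [e3]
    field_simp
  have e4 : qN m b (toC (⟨1 + F * x, F * y⟩ : OO n t)) =
      NI m * NI b * Nm (⟨1 + F * x, F * y⟩ : OO n t) := by
    unfold qN
    rw [← Nm_norm]
    have h : (NI m : ℝ) * NI b * ((Nm (⟨1 + F * x, F * y⟩ : OO n t) : ℤ) : ℝ) =
        (((NI m : ℤ) * NI b * Nm (⟨1 + F * x, F * y⟩ : OO n t) : ℤ) : ℝ) := by
      push_cast
      ring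
    rw [h, Int.floor_intCast]
  change zet q ^ (c * qN m b (1 + (F : ℕ) * q * (toC (⟨x, y⟩ : OO n t) / q))) *
    gO m b (1 / ((F : ℕ) * q) + toC (⟨x, y⟩ : OO n t) / q) = _
  rw [e1, e2, e4]

end Pool.Agent.DS.C
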