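import Pool.Agent.Lib.DS.C.Spec

/-!
# Part C for SqN (general modulus), module C4a: the limits of the values
-/

set_option autoImplicit false

open Filter Topology
open scoped Pointwise

noncomputable section

namespace Pool.Agent.DS.C

open Pool.Agent.MuZ Pool.Agent.FW NumberField Pool.Agent.DN Pool.Agent.DN.C Pool.Agent.DS
open Pool.Agent.DI (io ofC io_inj exists_io io_ofC ofC_io VP MP UP TP ex sqr sqr_sq kap)

variable {n t : ℕ}

/-- A system for `(n₁)`, `b` is also a system for `(n₁)`, `m b`. -/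
private theorem C4a_sys (h5 : S_L5) [SqN n t] {m b : Ideal (OO n t)} (hm : m ≠ ⊥) (hb : b ≠ ⊥) {n₁ : ℕ}
    (hn : 0 < n₁) (hmn : PrI m n₁) {U : Finset ℂ} (hU : IsSys (sp (n₁ : OO n t)) b U) :
    IsSys (sp (n₁ : OO n t)) (m * b) U := by
  obtain ⟨l1, l2⟩ := h5 n t m b n₁ hm hb hn hmn
  refine ⟨fun u hu => ?_, fun z hz => ?_, fun u hu u' hu' h => ?_⟩
  · exact lam_sp.2 (lam_mono (lam_sp.1 (hU.mem u hu)))
  · have h1 := lam_sp.1 hz
    rw [toC_nat] at h1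
    obtain ⟨z', hz', hzz⟩ := l2 z h1
    have h3 : z' ∈ Lam (sp (n₁ : OO n t) * b) := by
      rw [lam_sp, toC_nat]
      exact hz'
    obtain ⟨u, hu, hzu⟩ := hU.ex z' h3
    refine ⟨u, hu, ?_⟩
    have h4 := lam_add hzz (lam_mono (a := m) hzu)
    rwa [sub_add_sub_cancel] at h4
  · refine hU.uni u hu u' hu' (l1 _ ?_ h)
    rw [mul_sub, ← toC_nat (n := n) (t := t) n₁]
    exact lam_sub (lam_sp.1 (hU.mem u hu)) (lam_sp.1 (hU.mem u' hu'))

theorem tC4a (hS : S_Spl) (hL : S_Lt) (h2 : S_O2) (h6 : S_O6) (h5 : S_L5) (hB : S_B10)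
    (hC : S_Cnd) : S_C4a := by
  intro n t _ f m b hm hb c n₁ hn hnm U hU
  obtain ⟨-, -, -, -, -, -, -, -, -, -, -, -, -, -, -, hunit⟩ := hC n t f m b hm hb
  have hf : 0 < f := hm.pos
  have hf0 : (f : ℂ) ≠ 0 := by exact_mod_cast hf.ne'
  have hn0 : (n₁ : ℂ) ≠ 0 := by exact_mod_cast hn.ne'
  have hmb : m * b ≠ ⊥ := mul_ne_zero (a := m) (b := b) hm.ne hb.ne
  have hNm : NI (m * b) = NI m * NI b := (h2 n t).2.2.2.2.1 m b
  have hm0 : 0 < NI m := (hL n t m hm.ne).1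
  have hb0 : 0 < NI b := (hL n t b hb.ne).1
  have hmn : PrI m n₁ := ((h6 n t).2.2.1 n₁ m hn).2 hnm.symm
  have hU' := C4a_sys h5 hm.ne hb.ne hn hmn hU
  have hnu : ∀ u ∈ U, (n₁ : ℂ) * u ∈ Lam b := by
    intro u hu
    have h1 := lam_sp.1 (hU.mem u hu)
    rwa [toC_nat] at h1
  have hx : ∀ u ∈ U, 1 + f * n₁ * u ∈ Lam (m * b) := by
    intro u hu
    refine lam_mono (lam_add (lam_anti le_top (lam_top.2 ⟨1, toC_one.symm⟩)) ?_)
    rw [mul_assoc]
    exact lam_nat f (hnu u hu)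
  have hq : ∀ u ∈ U, (qN m b (1 + f * n₁ * u) : ℝ) = (NI m : ℝ) * NI b * ‖1 + f * n₁ * u‖ ^ 2 := by
    intro u hu
    obtain ⟨j, hj⟩ := (hL n t (m * b) hmb).2.2.2.1 _ (hx u hu)
    rw [hNm] at hj
    push_cast at hj
    unfold qN
    rw [hj, Int.floor_natCast]
    rfl
  have hz : ∀ u ∈ U, 1 / (f * n₁) + u ∉ Lam (m * b) ∧ Tor n t (1 / (f * n₁) + u) := by
    intro u hu
    constructor
    · intro h
      have h1 : (1 / f : ℂ) ∈ Lam (m * b) := by
        have h3 := lam_sub (lam_nat n₁ h) (lam_mono (a := m) (hnu u hu))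
        have h4 : (n₁ : ℂ) * (1 / (f * n₁) + u) - n₁ * u = 1 / f := by
          field_simp
          ring
        rwa [h4] at h3
      exact hunit h1
    · refine tor_add ?_ ((tor_iff hb.ne).2 ⟨n₁, hn, hnu u hu⟩)
      refine ⟨1, f * n₁, Nat.mul_pos hf hn, ?_⟩
      rw [toC_one]
      push_cast
      rfl
  refine ⟨hq, hz, ?_⟩
  -- the limit
  set C : ℝ := 2 * Real.pi * f ^ 2 * NI b * NI m * n₁ ^ 2 with hC
  have hC0 : 0 < C := by
    have h1 : (0 : ℝ) < f := by exact_mod_cast hf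
    have h3 : (0 : ℝ) < n₁ := by exact_mod_cast hn
    have h4 : (0 : ℝ) < NI m := by exact_mod_cast hm0
    have h7 : (0 : ℝ) < NI b := by exact_mod_cast hb0
    have := Real.pi_pos
    positivity
  have hτ : Tendsto (fun y : ℝ => C * y) (𝓝[>] 0) (𝓝[>] 0) := by
    rw [tendsto_nhdsWithin_iff]
    constructor
    · have h : Tendsto (fun y : ℝ => C * y) (𝓝 0) (𝓝 (C * 0)) :=
        (continuous_const.mul continuous_id).tendsto 0
      rw [mul_zero] at h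
      exact h.mono_left nhdsWithin_le_nhds
    · filter_upwards [self_mem_nhdsWithin] with y hy
      exact mul_pos hC0 hy
  have hlim : Tendsto (fun y : ℝ => (n₁ : ℂ)⁻¹ * ∑ u ∈ U, ex (c * qN m b (1 + f * n₁ * u) / n₁) *
      ((KtC (m * b) (C * y) (1 / (f * n₁) + u) - NI m * KtC b (C * y) (1 / (f * n₁) + u)) / fr b))
      (𝓝[>] 0) (𝓝 ((n₁ : ℂ)⁻¹ * ∑ u ∈ U, ex (c * qN m b (1 + f * n₁ * u) / n₁) *
        gC m b (1 / (f * n₁) + u))) := by
    refine Tendsto.const_mul _ (tendsto_finsetSum _ fun u hu => Tendsto.const_mul _ ?_)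
    have hzb : 1 / (f * n₁) + u ∉ Lam b := fun h => (hz u hu).1 (lam_mono h)
    have t1 := ((hB n t (m * b) hmb).1 _ (hz u hu).1).comp hτ
    have t2 := ((hB n t b hb.ne).1 _ hzb).comp hτ
    exact (t1.sub (t2.const_mul _)).div_const _
  refine hlim.congr' ?_
  filter_upwards [self_mem_nhdsWithin] with y hy
  have e1 := hS n t f n₁ 1 (m * b) c U hf hn one_pos hmb hU' y hy
  have e2 := hS n t f n₁ (NI m) b c U hf hn hm0 hb.ne hU y hy
  rw [Nat.cast_one, one_mul] at e1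
  have hcn : (((c / n₁ : ℚ) : ℚ) : ℂ) = (c : ℂ) / n₁ := by push_cast; rfl
  unfold ThM
  rw [hcn, e1, e2, Finset.mul_sum, Finset.mul_sum, Finset.mul_sum, Finset.mul_sum,
    ← Finset.sum_sub_distrib, Finset.sum_div]
  refine Finset.sum_congr rfl fun u hu => ?_
  have a1 : 2 * Real.pi * y * f ^ 2 * NI (m * b) * ((1 : ℕ) : ℝ) * n₁ ^ 2 = C * y := by
    rw [hNm, hC]
    push_cast
    ring
  have a2 : 2 * Real.pi * y * f ^ 2 * NI b * NI m * n₁ ^ 2 = C * y := by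
    rw [hC]
    ring
  have a3 : ((qN m b (1 + f * n₁ * u) : ℤ) : ℂ) = (NI m : ℂ) * NI b * (‖1 + f * n₁ * u‖ : ℂ) ^ 2 := by
    have := hq u hu
    exact_mod_cast congrArg (fun t₁ : ℝ => (t₁ : ℂ)) this
  rw [a1, a2, a3, hNm]
  push_cast
  rw [one_mul]
  ring

end Pool.Agent.DS.C
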