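import Pool.Agent.Lib.DS.C.Spec
import Pool.Agent.Lib.DN.Ded
import Pool.Agent.Lib.DN.CV.Bas

set_option autoImplicit false

/-!
# Part C for SqN, module C6: class functions, periods, complex conjugation
-/

open Filter Topology
open scoped Pointwise

noncomputable section

namespace Pool.Agent.DS.C

open Pool.Agent.MuZ Pool.Agent.FW NumberField Pool.Agent.DN Pool.Agent.DN.C Pool.Agent.DS
open Pool.Agent.DI (io ofC io_inj exists_io io_ofC ofC_io VP MP UP TP ex sqr sqr_sq kap)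

variable {n t : ℕ}

/-- Class functions. -/
private theorem C6_ray [SqN n t] (hH : S_Hom) {F : ℕ} {m b b' : Ideal (OO n t)} (hm : FMg F m)
    (hb : FBg F b) (hb' : FBg F b') (hF : 30 ≤ F) (h : Ray F b b') (z : ℂ) :
    ThM F m b z = ThM F m b' z := by
  obtain ⟨α, α', h0, h0', c1, -, hd, he⟩ := h
  obtain ⟨β, c2, hβ⟩ := cop_inv c1
  have hβ0 : β ≠ 0 := by
    rintro rfl
    rw [mul_zero, zero_sub, dvd_neg, nat_dvd_iff, re_one] at hβ
    have h1 := Int.le_of_dvd one_pos hβ.1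
    omega
  have hβ' : ((F : ℕ) : OO n t) ∣ α' * β - 1 := by
    have e : α' * β - 1 = (α * β - 1) - (α - α') * β := by ring
    rw [e]
    exact dvd_sub hβ (Dvd.dvd.mul_right hd β)
  have e1 : sp (α * β) * b = sp (α' * β) * b' := by
    have h1 : sp (α * β) = sp β * sp α := by
      rw [Ideal.span_singleton_mul_span_singleton, mul_comm β α]
    have h2 : sp (α' * β) = sp β * sp α' := by
      rw [Ideal.span_singleton_mul_span_singleton, mul_comm β α']
    rw [h1, h2, mul_assoc, mul_assoc]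
    exact congrArg (fun t₁ => sp β * t₁) he
  have h1 := (hH n t F hm.pos hm.two hm.dvd).2.2.2 m b hm hb (α * β) z (mul_ne_zero h0 hβ0) hβ
  have h2 := (hH n t F hm.pos hm.two hm.dvd).2.2.2 m b' hm hb' (α' * β) z (mul_ne_zero h0' hβ0) hβ'
  rw [← h1, ← h2, e1]

/-- The period. -/
private theorem C6_per [SqN n t] (hR : S_Red) {F : ℕ} {m b : Ideal (OO n t)} (hm : FMg F m)
    (hb : FBg F b) (z : ℂ) : ThM F m b (z + 1) = ThM F m b z := by
  have hf : 0 < F := hm.pos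
  have hmb : m * b ≠ ⊥ := by
    intro h0
    rcases Ideal.mul_eq_bot.1 h0 with h1 | h1
    · exact hm.ne h1
    · exact hb.ne h1
  have h1 := (hR n t F (m * b) hf hmb 1).2.2.2.1 z 1
  have h2 := (hR n t F b hf hb.ne 1).2.2.2.1 (NI m * z) (NI m)
  rw [Int.cast_one] at h1
  rw [Int.cast_natCast] at h2
  unfold ThM
  rw [mul_add, mul_one, h1, h2]

private theorem C6_lim (f : ℕ) (m b m' b' : Ideal (OO n t)) (r r' : ℚ)
    (h : ∀ y : ℝ, ThM f m b (r + y * Complex.I) = ThM f m' b' (r' + y * Complex.I)) :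
    hM f m b r = hM f m' b' r' := by
  unfold hM
  congr 1
  funext y
  exact h y

private theorem C6_cs [SqN n t] (hL : S_L2) {b : Ideal (OO n t)} (hb : b ≠ ⊥) (f : ℕ) :
    cs ((((1 : ℤ) : ℂ)) / f) (cjI b) = (starRingEnd ℂ) '' cs ((((1 : ℤ) : ℂ)) / f) b := by
  have h0 := (hL n t).2.2.2.2.2.2.1
  have hc : (starRingEnd ℂ) ((((1 : ℤ) : ℂ)) / f) = (((1 : ℤ) : ℂ)) / f := by
    rw [map_div₀, map_intCast, map_natCast]
  ext v
  constructor
  · intro hv
    refine ⟨(starRingEnd ℂ) v, ?_, Complex.conj_conj v⟩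
    have h1 := (h0 b _ hb).1 hv
    rw [map_sub, hc] at h1
    exact h1
  · rintro ⟨u, hu, rfl⟩
    refine (h0 b _ hb).2 ?_
    rw [map_sub, hc, Complex.conj_conj]
    exact hu

private theorem C6_ne [SqN n t] (h2 : S_O2) (h3 : S_O3) {b : Ideal (OO n t)} (hb : b ≠ ⊥) :
    cjI b ≠ ⊥ := by
  intro h
  have h1 := ((h2 n t).2.2.2.2.2.1 (cjI b)).2 h
  rw [((h3 n t).2.2.1 b).2.1] at h1
  exact hb (((h2 n t).2.2.2.2.2.1 b).1 h1)

private theorem C6_Tc [SqN n t] (hR : S_Red) (hT : S_Tt) (h2 : S_O2) (h3 : S_O3) (hL : S_L2)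
    {F : ℕ} (hf : 0 < F) {b : Ideal (OO n t)} (hb : b ≠ ⊥) (z : ℂ) :
    Tc F (cjI b) 1 (-(starRingEnd ℂ) z) = (starRingEnd ℂ) (Tc F b 1 z) := by
  have hT2 : ∀ (A : Set ℂ) (w : ℝ) (z : ℂ), TT ((starRingEnd ℂ) '' A) w z =
    (starRingEnd ℂ) (TT A w (-(starRingEnd ℂ) z)) := hT.2.1
  rw [(hR n t F (cjI b) hf (C6_ne h2 h3 hb) 1).2.2.1, (hR n t F b hf hb 1).2.2.1, C6_cs hL hb F,
    hT2, map_neg, Complex.conj_conj, neg_neg, ((h3 n t).2.2.1 b).2.1]

private theorem C6_conj [SqN n t] (hR : S_Red) (hT : S_Tt) (h2 : S_O2) (h3 : S_O3) (hL : S_L2)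
    (hB : S_B7) (hC : S_Cnd) {F : ℕ} {m b : Ideal (OO n t)} (hm : FMg F m) (hb : FBg F b) (z : ℂ) :
    (starRingEnd ℂ) (ThM F m b z) = ThM F (cjI m) (cjI b) (-(starRingEnd ℂ) z) := by
  have hf : 0 < F := hm.pos
  have hmb : m * b ≠ ⊥ := by
    intro h0
    rcases Ideal.mul_eq_bot.1 h0 with h1 | h1
    · exact hm.ne h1
    · exact hb.ne h1
  have e1 := C6_Tc hR hT h2 h3 hL hf hmb z
  have e2 := C6_Tc hR hT h2 h3 hL hf hb.ne (NI m * z)
  obtain ⟨-, -, -, -, -, -, -, -, hG, -⟩ := hC n t F m b hm hb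
  have e3 := ((hB n t b hb.ne).2.2 hG.cop).2.1
  rw [map_mul, map_natCast, ← mul_neg] at e2
  rw [(h3 n t).2.1] at e1
  unfold ThM
  rw [map_div₀, map_sub, map_mul, map_natCast, e3, ← e1, ← e2, ((h3 n t).2.2.1 m).2.1]

/-- `ofC` is odd. -/
private theorem C6_neg (y : ℂ) : ofC (-y) = -ofC y := by
  by_cases h : ∃ x : Om, io x = y
  · obtain ⟨x, rfl⟩ := h
    rw [ofC_io, ← map_neg, ofC_io]
  · have h' : ¬ ∃ x : Om, io x = -y := by
      rintro ⟨x, hx⟩
      exact h ⟨-x, by rw [map_neg, hx, neg_neg]⟩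
    unfold ofC
    rw [dif_neg h, dif_neg h', neg_zero]

/-- A level. -/
theorem C6_lev [SqN n t] (hC : S_Cnd) {F : ℕ} {m b : Ideal (OO n t)} (hm : FMg F m)
    (hb : FBg F b) : IsLg F m {b} (levg F m {b}) := by
  obtain ⟨hf, -, m0, b0, -⟩ := hC n t F m b hm hb
  have hD3' := hD3 (n := n) (t := t)
  refine ⟨?_, dvd_rfl⟩
  unfold levg
  rw [Finset.prod_singleton]
  have h0 : 0 < Dk n t := by
    have h5 : (0 : ℤ) < Dk n t := by
      rw [Dk_cast (n := n) (t := t)]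
      linarith
    exact_mod_cast h5
  have h1 : 0 < F := hm.pos
  positivity

/-- The period `1/l` of the limits. -/
private theorem C6_lp [SqN n t] (hV : S_Val) (hP : S_Par) (hC : S_Cnd) {F : ℕ}
    {m b : Ideal (OO n t)} (hm : FMg F m) (hb : FBg F b) {l : ℕ} (hl : 0 < l) (hd : Dvl t F l)
    (r : ℚ) : hM F m b (r + 1 / l) = ex (NI (m * b) / l) * hM F m b r := by
  have hv := (hV n t F _ m b hm hb (C6_lev hC hm hb)).1 1
  have t1 : Tendsto (fun y : ℝ => ThM F m b ((r : ℂ) + y * Complex.I)) (𝓝[>] 0)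
      (𝓝 (hM F m b r)) := hv r
  have t2 : Tendsto (fun y : ℝ => ThM F m b (((r + 1 / l : ℚ) : ℂ) + y * Complex.I))
      (𝓝[>] 0) (𝓝 (hM F m b (r + 1 / l))) := hv (r + 1 / l)
  refine tendsto_nhds_unique t2 ?_
  refine (t1.const_mul (ex (NI (m * b) / l))).congr' ?_
  filter_upwards [self_mem_nhdsWithin] with y hy
  have hy' : (0 : ℝ) < y := hy
  have hz : (0 : ℝ) < ((r : ℂ) + y * Complex.I).im := by
    simpa using hy'
  rw [← (hP n t F m b hm hb).2 l hl hd _ hz]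
  congr 1
  push_cast
  ring

theorem tC6 (hH : S_Hom) (hR : S_Red) (hT : S_Tt) (h4 : S_C4) (hV : S_Val) (hP : S_Par)
    (h2 : S_O2) (h3 : S_O3) (hL : S_L2) (hB : S_B7) (hC : S_Cnd) : S_C6 := by
  intro n t _ F m b hm hb
  obtain ⟨hF30, hmb, m0, b0, hNI, om, ob, -⟩ := hC n t F m b hm hb
  have hm' : FMg F (cjI m) :=
    ⟨hm.pos, hm.two, hm.dvd, C6_ne h2 h3 hm.ne, ((h3 n t).2.2.2.2.1 m F).2 hm.cop⟩
  have hb' : FBg F (cjI b) := ⟨C6_ne h2 h3 hb.ne, ((h3 n t).2.2.2.2.1 b F).2 hb.cop⟩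
  have hval : ∀ r : ℚ, r.den.Coprime (NI m) → io (etaM F m b r) = hM F m b r := by
    intro r hr
    have h5 := (h4 n t F m b hm hb r.num r.den r.den_pos hr).2.1
    rwa [Rat.num_div_den] at h5
  refine ⟨?_, ?_, ?_, ?_, ?_⟩
  · intro b₁ hb₁ hr
    have h1 : ∀ z : ℂ, ThM F m b z = ThM F m b₁ z := C6_ray hH hm hb hb₁ hF30 hr
    refine ⟨h1, fun r => ?_⟩
    unfold etaM
    rw [C6_lim F m b m b₁ r r fun y => h1 _]
  · intro r
    refine ⟨?_, ?_⟩
    · unfold etaM
      rw [C6_lim F m b m b (r + 1) r fun y => ?_]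
      have e : (((r + 1 : ℚ) : ℂ)) + y * Complex.I = (r + y * Complex.I) + 1 := by
        push_cast
        ring
      rw [e, C6_per hR hm hb]
    · have e := C6_lp hV hP hC hm hb (l := 2) two_pos (Or.inl hm.two) r
      have hodd : Odd (NI (m * b)) := by
        rw [hNI]
        exact om.mul ob
      have e2 : ex ((NI (m * b) : ℂ) / ((2 : ℕ) : ℂ)) = -1 := by
        obtain ⟨i, hi⟩ := hodd
        have h3 : ((NI (m * b) : ℕ) : ℂ) / ((2 : ℕ) : ℂ) = (i : ℂ) + 1 / 2 := by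
          rw [hi]
          push_cast
          ring
        rw [h3]
        unfold ex
        have h4 : 2 * (Real.pi : ℂ) * Complex.I * ((i : ℂ) + 1 / 2) =
            i * (2 * Real.pi * Complex.I) + Real.pi * Complex.I := by ring
        rw [h4, Complex.exp_add, Complex.exp_pi_mul_I, Complex.exp_nat_mul_two_pi_mul_I]
        ring
      rw [e2] at e
      have e3 : (r + 1 / ((2 : ℕ) : ℚ)) = r + 1 / 2 := by norm_num
      rw [e3] at e
      unfold etaM
      rw [e, neg_one_mul, C6_neg]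
  · intro l hl hd
    refine ⟨(hP n t F m b hm hb).2 l hl hd, fun r hr => ?_⟩
    have hr2 : (r + 1 / l : ℚ).den.Coprime (NI m) := by
      have h5 : (r + 1 / l : ℚ).den ∣ r.den * (1 / l : ℚ).den := Rat.add_den_dvd _ _
      refine Nat.Coprime.coprime_dvd_left h5 ?_
      refine Nat.Coprime.mul_left hr ?_
      have h6 : (1 / l : ℚ).den ∣ l := by
        have h7 := Rat.den_dvd 1 (l : ℤ)
        rw [Rat.divInt_eq_div] at h7
        have e8 : (((1 : ℤ) : ℚ) / ((l : ℤ) : ℚ)) = 1 / l := by push_cast; rfl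
        rw [e8] at h7
        exact_mod_cast h7
      refine Nat.Coprime.coprime_dvd_left h6 ?_
      have h9 : (NI m).Coprime F := by
        have h10 := (hC n t F m b hm hb).2.2.2.2.2.2.2.2.2.2.2.2.1
        rw [hNI] at h10
        exact Nat.Coprime.coprime_dvd_left (dvd_mul_right _ _) h10
      have h11 : (NI m).Coprime (2 * F) :=
        Nat.Coprime.mul_right (Nat.coprime_two_right.2 om) h9
      rcases hd with hd | ⟨-, hd⟩
      · exact (Nat.Coprime.coprime_dvd_right hd h9).symm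
      · exact (Nat.Coprime.coprime_dvd_right hd h11).symm
    apply io_inj
    rw [map_mul, map_pow, CV_io_zet hl, hval r hr, hval _ hr2, C6_lp hV hP hC hm hb hl hd r]
    congr 1
    unfold ex
    rw [← Complex.exp_nat_mul]
    congr 1
    ring
  · exact C6_conj hR hT h2 h3 hL hB hC hm hb
  · intro c hc r hr
    apply io_inj
    have hrq : (((r.num : ℤ) : ℚ) / ((r.den : ℕ) : ℚ)) = r := Rat.num_div_den r
    have hrq' : (((-r.num : ℤ) : ℚ) / ((r.den : ℕ) : ℚ)) = -r := by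
      rw [Int.cast_neg, neg_div, hrq]
    obtain ⟨t1, e1, -⟩ := h4 n t F m b hm hb r.num r.den r.den_pos hr
    rw [hrq] at t1 e1
    have hr' : r.den.Coprime (NI (cjI m)) := by
      rw [((h3 n t).2.2.1 m).2.1]
      exact hr
    obtain ⟨t2, e2, -⟩ := h4 n t F (cjI m) (cjI b) hm' hb' (-r.num) r.den r.den_pos hr'
    rw [hrq'] at t2 e2
    rw [hc, e1, e2]
    have t3 := (Complex.continuous_conj.tendsto _).comp t1
    refine tendsto_nhds_unique (t3.congr fun y => ?_) t2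
    change (starRingEnd ℂ) (ThM F m b ((r : ℂ) + y * Complex.I)) = _
    rw [C6_conj hR hT h2 h3 hL hB hC hm hb]
    congr 1
    rw [map_add, map_mul, Complex.conj_I, Complex.conj_ofReal]
    have e : (starRingEnd ℂ) (r : ℂ) = r := by
      have h4 : ((r : ℂ)) = (((r : ℝ)) : ℂ) := by push_cast; rfl
      rw [h4, Complex.conj_ofReal]
    rw [e]
    push_cast
    ring

end Pool.Agent.DS.C
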