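import Pool.Agent.Lib.DS.C.Spec

set_option autoImplicit false

/-!
# Part C for SqN (general modulus), module C7a: the sets `vN` and the bound of `cM`
-/

open Filter Topology
open scoped Pointwise

noncomputable section

namespace Pool.Agent.DS.C

open Pool.Agent.MuZ Pool.Agent.FW NumberField Pool.Agent.DN Pool.Agent.DN.C Pool.Agent.DS
open Pool.Agent.DI (io ofC io_inj exists_io io_ofC ofC_io VP MP UP TP ex sqr sqr_sq kap)

/-- The finite set which contains the points of `vN`. -/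
private def C7a_T {n t : ℕ} (f : ℕ) (c : Ideal (OO n t)) (n₁ : ℕ) : Finset ℂ :=
  (Finset.Icc (-(4 * n₁ * NI c : ℤ)) (4 * n₁ * NI c) ×ˢ
    Finset.Icc (-(4 * n₁ * NI c : ℤ)) (4 * n₁ * NI c)).image
      (fun p : ℤ × ℤ => toC (⟨p.1, p.2⟩ : OO n t) / (f * NI c))

private theorem C7a_card {n t : ℕ} (f : ℕ) (c : Ideal (OO n t)) (n₁ : ℕ) :
    ((C7a_T f c n₁).card : ℝ) ≤ (8 * NI c + 1) ^ 2 * (n₁ + 1) ^ 2 := by
  have h1 : (C7a_T f c n₁).card ≤ (8 * n₁ * NI c + 1) * (8 * n₁ * NI c + 1) := by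
    refine Finset.card_image_le.trans ?_
    rw [Finset.card_product, Int.card_Icc]
    have : (4 * n₁ * NI c + 1 - -(4 * n₁ * NI c) : ℤ).toNat = 8 * n₁ * NI c + 1 := by
      have e : (4 * n₁ * NI c + 1 - -(4 * n₁ * NI c) : ℤ) = ((8 * n₁ * NI c + 1 : ℕ) : ℤ) := by
        push_cast
        ring
      rw [e, Int.toNat_natCast]
    rw [this]
  have h2 : (C7a_T f c n₁).card ≤ (8 * NI c + 1) ^ 2 * (n₁ + 1) ^ 2 := by
    refine h1.trans ?_
    have h3 : 8 * n₁ * NI c + 1 ≤ (8 * NI c + 1) * (n₁ + 1) := by nlinarith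
    calc (8 * n₁ * NI c + 1) * (8 * n₁ * NI c + 1)
        ≤ ((8 * NI c + 1) * (n₁ + 1)) * ((8 * NI c + 1) * (n₁ + 1)) := Nat.mul_le_mul h3 h3
      _ = _ := by ring
  exact_mod_cast h2

private theorem C7a_sub (hL : S_Lt) (hB : S_Bas) {n t : ℕ} [SqN n t] {f : ℕ} (hf : 0 < f)
    {c : Ideal (OO n t)} (hc : c ≠ ⊥) (n₁ : ℕ) {v : ℂ} (h1 : v - 1 / f ∈ Lam c)
    (h2 : (f : ℝ) ^ 2 * NI c * ‖v‖ ^ 2 = n₁) : v ∈ C7a_T f c n₁ := by
  obtain ⟨l1, l2, -⟩ := hL n t c hc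
  obtain ⟨b1, -, -, -, -, b6, -⟩ := hB n t
  have hf' : (f : ℂ) ≠ 0 := by exact_mod_cast hf.ne'
  have hN' : (NI c : ℂ) ≠ 0 := by exact_mod_cast l1.ne'
  have hfr : (f : ℝ) ≠ 0 := by exact_mod_cast hf.ne'
  have hNr : (NI c : ℝ) ≠ 0 := by exact_mod_cast l1.ne'
  have hone : (1 : ℂ) ∈ Lam c := fun w _ => ⟨w, by rw [mul_one]⟩
  have hfv : (f : ℂ) * v ∈ Lam c := by
    have h3 := lam_add (lam_nat f h1) hone
    have e : (f : ℂ) * (v - 1 / f) + 1 = f * v := by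
      field_simp
      ring
    rwa [e] at h3
  obtain ⟨u, -, hu⟩ := (l2 _).1 hfv
  have hv : v = toC u / (f * NI c) := by
    rw [eq_div_iff (mul_ne_zero hf' hN')]
    rw [eq_div_iff hN'] at hu
    rw [← hu]
    ring
  have hnm : Nm u = n₁ * NI c := by
    have h3 : (Nm u : ℝ) = n₁ * NI c := by
      rw [← h2, hv, norm_div, norm_mul, Complex.norm_natCast, Complex.norm_natCast, div_pow, b1]
      field_simp
    exact_mod_cast h3
  have h3 := (b6 u).2.2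
  rw [hnm] at h3
  have h4 := Int.le_self_sq u.re
  have h5 := Int.le_self_sq (-u.re)
  have h6 := Int.le_self_sq u.im
  have h7 := Int.le_self_sq (-u.im)
  have h8 := sq_nonneg u.re
  have h9 := sq_nonneg u.im
  unfold C7a_T
  rw [Finset.mem_image]
  refine ⟨(u.re, u.im), ?_, hv.symm⟩
  rw [Finset.mem_product, Finset.mem_Icc, Finset.mem_Icc]
  refine ⟨⟨?_, ?_⟩, ?_, ?_⟩ <;> simp only <;> nlinarith

open Classical in
theorem tC7a (hL : S_Lt) (hB : S_Bas) : S_C7a := by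
  intro n t _ f m b hM hFb
  have hf : 0 < f := hM.pos
  have hc : m * b ≠ ⊥ := fun h => (Ideal.mul_eq_bot.1 h).elim hM.ne hFb.ne
  have hf' : (f : ℂ) ≠ 0 := by exact_mod_cast hf.ne'
  have hfin : ∀ n₁ : ℕ, {v : ℂ | v - 1 / f ∈ Lam (m * b) ∧
      (f : ℝ) ^ 2 * NI (m * b) * ‖v‖ ^ 2 = n₁}.Finite := fun n₁ =>
    (Finset.finite_toSet (C7a_T f (m * b) n₁)).subset fun v hv =>
      C7a_sub hL hB hf hc n₁ hv.1 hv.2
  have hmem : ∀ (n₁ : ℕ) (v : ℂ), v ∈ vN f (m * b) n₁ ↔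
      v - 1 / f ∈ Lam (m * b) ∧ (f : ℝ) ^ 2 * NI (m * b) * ‖v‖ ^ 2 = n₁ := by
    intro n₁ v
    unfold vN
    rw [dif_pos (hfin n₁), Set.Finite.mem_toFinset]
    rfl
  obtain ⟨l1, -, -, -, -, l6, -⟩ := hL n t (m * b) hc
  refine ⟨hmem, ?_⟩
  · obtain ⟨C, hC⟩ := l6 (1 / f) (by
      have h3 := tor_div (n := n) (t := t) hf 1
      rwa [toC_one] at h3)
    have hC0 : 0 ≤ C := le_trans (norm_nonneg _) (hC (1 / f) (by
      show (1 / f : ℂ) - 1 / f ∈ Lam (m * b)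
      rw [sub_self]
      exact lam_zero _))
    refine ⟨(8 * NI (m * b) + 1) ^ 2 * ((1 + NI m) * C), fun n₁ => ?_⟩
    have h3 : ∀ v ∈ vN f (m * b) n₁,
        ‖(if v - 1 / f ∈ Lam b then (1 - NI m : ℂ) else 1) * v⁻¹‖ ≤ (1 + NI m) * C := by
      intro v hv
      rw [norm_mul]
      refine mul_le_mul ?_ (hC v ((hmem n₁ v).1 hv).1) (norm_nonneg _) (by positivity)
      split_ifs
      · refine (norm_sub_le _ _).trans ?_
        rw [norm_one, Complex.norm_natCast]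
      · rw [norm_one]
        have : (0 : ℝ) ≤ NI m := Nat.cast_nonneg _
        linarith
    have h4 : ‖cM f m b n₁‖ ≤ (vN f (m * b) n₁).card • ((1 + NI m) * C) := by
      unfold cM
      exact (norm_sum_le _ _).trans (Finset.sum_le_card_nsmul _ _ _ h3)
    have h5 : ((vN f (m * b) n₁).card : ℝ) ≤ (8 * NI (m * b) + 1) ^ 2 * (n₁ + 1) ^ 2 := by
      refine le_trans ?_ (C7a_card f (m * b) n₁)
      exact_mod_cast Finset.card_le_card fun v hv =>
        C7a_sub hL hB hf hc n₁ ((hmem n₁ v).1 hv).1 ((hmem n₁ v).1 hv).2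
    rw [nsmul_eq_mul] at h4
    refine h4.trans ((mul_le_mul_of_nonneg_right h5 (by positivity)).trans (le_of_eq ?_))
    ring

end Pool.Agent.DS.C
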