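import Pool.Agent.Lib.DS.C.Spec
import Pool.Agent.Lib.DN.CV.Bas

set_option autoImplicit false

/-!
# Part C for SqN, module C7b: the coefficients `cM` are algebraic and divisible by `F`
-/

open Filter Topology
open scoped Pointwise

noncomputable section

namespace Pool.Agent.DS.C

open Pool.Agent.MuZ Pool.Agent.FW NumberField Pool.Agent.DN Pool.Agent.DN.C Pool.Agent.DS
open Pool.Agent.DI (io ofC io_inj exists_io io_ofC ofC_io VP MP UP TP ex sqr sqr_sq kap)

/-- An integer prime to `F` is a unit at the primes which contain `F`. -/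
theorem C7b_up {P : Ideal ZZ} (hP : P.IsPrime) {F : ℕ} (hF : MP P (F : Om)) {j : ℤ}
    (hj : IsCoprime j (F : ℤ)) : UP P (j : Om) := by
  refine ⟨DI.VP.int j, fun h => ?_⟩
  obtain ⟨u, v, huv⟩ := hj
  have h1 : MP P (((u : ℤ) : Om) * j + ((v : ℤ) : Om) * F) :=
    (DI.MP.mul_left (DI.VP.int u) h).add (DI.MP.mul_left (DI.VP.int v) hF)
  have e : ((u : ℤ) : Om) * j + ((v : ℤ) : Om) * F = 1 := by
    exact_mod_cast congrArg (fun x : ℤ => (x : Om)) huv
  rw [e] at h1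
  exact DI.MP.one_not h1

private theorem C7b_term (hL : S_Lt) {n t : ℕ} [SqN n t] {F : ℕ} (hf : 30 ≤ F)
    {c : Ideal (OO n t)} (hc : c ≠ ⊥) (ho : (NI c).Coprime F) {v : ℂ}
    (h1 : v - 1 / (F : ℕ) ∈ Lam c) :
    ∃ X : Om, io X = v⁻¹ ∧ ∀ P : Ideal ZZ, Npr P → MP P (F : Om) → TP P (F : Om) X := by
  obtain ⟨l1, l2, -⟩ := hL n t c hc
  obtain ⟨u, -, hu⟩ := (l2 _).1 h1
  have hf' : ((F : ℕ) : ℂ) ≠ 0 := by exact_mod_cast (by omega : F ≠ 0)
  have hN' : (NI c : ℂ) ≠ 0 := by exact_mod_cast l1.ne'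
  obtain ⟨x, hx⟩ : ∃ x : OO n t, x = (NI c : OO n t) + ((F : ℕ) : OO n t) * u := ⟨_, rfl⟩
  have hxC : toC x = (F : ℕ) * NI c * v := by
    rw [hx, toC_add, toC_mul, toC_nat, toC_nat]
    rw [eq_div_iff hN'] at hu
    rw [← hu]
    field_simp
    ring
  have hcop : IsCoprime (Nm x) (F : ℤ) := by
    have h2 : ((F : ℕ) : OO n t) ∣ x - (NI c : OO n t) := by
      rw [hx, add_sub_cancel_left]
      exact Dvd.intro _ rfl
    have h3 := Nm_congr h2
    rw [Nm_nat] at h3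
    obtain ⟨k, hk⟩ := h3
    have h4 : IsCoprime ((NI c : ℤ) ^ 2) (F : ℤ) :=
      (Nat.isCoprime_iff_coprime.2 ho).pow_left
    have e : Nm x = (NI c : ℤ) ^ 2 + F * k := by linarith
    rw [e]
    exact (IsCoprime.add_mul_left_left_iff).2 h4
  have hn0 : Nm x ≠ 0 := by
    intro h0
    rw [h0, isCoprime_zero_left, Int.isUnit_iff] at hcop
    omega
  have hx0 : x ≠ 0 := by
    intro h0
    rw [h0, Nm_zero] at hn0
    exact hn0 rfl
  have hv0 : v ≠ 0 := by
    intro h0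
    rw [h0, mul_zero] at hxC
    exact toC_ne hx0 hxC
  refine ⟨F * ((NI c : Om) * toO (cjO x) * ((Nm x : ℤ) : Om)⁻¹), ?_, ?_⟩
  · have h4 : ((Nm x : ℤ) : ℂ) = toC x * toC (cjO x) := toC_Nm x
    have h5 : toC (cjO x) ≠ 0 := by
      intro h0
      rw [h0, mul_zero] at h4
      exact hn0 (by exact_mod_cast h4)
    rw [map_mul, map_mul, map_mul, map_inv₀, io_toO, map_natCast, map_natCast,
      map_intCast, h4, mul_inv, hxC]
    field_simp
  · intro P hP hF
    have := hP.1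
    refine ⟨_, ?_, rfl⟩
    have h6 : VP P (((Nm x : ℤ) : Om)⁻¹) := ((C7b_up hP.1 hF hcop).inv).1
    exact ((DI.VP.nat (NI c)).mul (toO_VP _)).mul h6

open Classical in
theorem tC7b (hC : S_Cnd) (hL : S_Lt) (hA : S_C7a) : S_C7b := by
  intro n t _ F m b hM hFb j
  obtain ⟨c1, c2, c3, c4, c5, c6, c7, -, -, -, -, -, c8, -⟩ := hC n t F m b hM hFb
  obtain ⟨a1, -⟩ := hA n t F m b hM hFb
  have key : ∃ X : Om, io X = cM F m b j ∧
      ∀ P : Ideal ZZ, Npr P → MP P (F : Om) → TP P (F : Om) X := by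
    have h1 : ∀ v ∈ vN F (m * b) j, ∃ X : Om, io X = v⁻¹ ∧
        ∀ P : Ideal ZZ, Npr P → MP P (F : Om) → TP P (F : Om) X := fun v hv =>
      C7b_term hL c1 c2 c8 ((a1 j v).1 hv).1
    choose! X hX1 hX2 using h1
    refine ⟨∑ v ∈ vN F (m * b) j,
      X v * (if v - 1 / (F : ℕ) ∈ Lam b then (1 - NI m : Om) else 1), ?_, ?_⟩
    · rw [map_sum]
      unfold cM
      refine Finset.sum_congr rfl fun v hv => ?_
      rw [map_mul, hX1 v hv, mul_comm]
      congr 1
      split_ifs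
      · rw [map_sub, map_one, map_natCast]
      · rw [map_one]
    · intro P hP hF
      have := hP.1
      refine CV_tp_sum hP.1 _ _ fun v hv => CV_tp_mul hP.1 (hX2 v hv P hP hF) ?_
      split_ifs
      · exact DI.VP.one.sub (DI.VP.nat _)
      · exact DI.VP.one
  obtain ⟨X, hX, hX'⟩ := key
  have e : ofC (cM F m b j) = X := by rw [← hX, ofC_io]
  rw [e]
  exact ⟨hX, hX'⟩

end Pool.Agent.DS.C
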