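import Pool.Agent.Lib.DS.C.Spec
import Pool.Agent.Lib.DN.O.Spec

/-!
# Part C for SqN, module Cnd: consequences of the conditions on `F`, `m`, `b`
-/

set_option autoImplicit false

noncomputable section

namespace Pool.Agent.DS.C

open Pool.Agent.MuZ Pool.Agent.FW NumberField Pool.Agent.DN Pool.Agent.DN.C Pool.Agent.DS
open Pool.Agent.DI (io ofC io_inj exists_io io_ofC ofC_io VP MP UP TP ex)

theorem tCnd (h2 : S_O2) (h6 : S_O6) (hL : S_L6a) (hB : S_B1) : S_Cnd := by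
  intro n t _ F m b hm hb
  obtain ⟨-, -, -, -, nmul, nzero, -, -⟩ := h2 n t
  obtain ⟨pmul, pdv, pni, -, -⟩ := h6 n t
  have hF30 : 30 ∣ F := by
    have h1 := hm.two
    have h3 := hm.dvd
    omega
  have hF : 30 ≤ F := Nat.le_of_dvd hm.pos hF30
  have hmb : m * b ≠ ⊥ := by
    intro h
    rcases Ideal.mul_eq_bot.1 h with h | h
    · exact hm.ne h
    · exact hb.ne h
  have hνm : 0 < NI m := Nat.pos_of_ne_zero fun h => hm.ne ((nzero m).1 h)
  have hνb : 0 < NI b := Nat.pos_of_ne_zero fun h => hb.ne ((nzero b).1 h)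
  have dv : ∀ (l : ℕ) (a : Ideal (OO n t)), l ∣ F → PrI a F → PrI a l := by
    intro l a hl ha
    obtain ⟨g, hg⟩ := hl
    rw [hg] at ha
    exact ((pdv l g a).1 ha).1
  have hm2 : PrI m 2 := dv 2 m hm.two hm.cop
  have hb2 : PrI b 2 := dv 2 b hm.two hb.cop
  have hm15 : PrI m 15 := dv 15 m hm.dvd hm.cop
  have hb15 : PrI b 15 := dv 15 b hm.dvd hb.cop
  have hmbF : PrI (m * b) F := (pmul F m b).2 ⟨hm.cop, hb.cop⟩
  have hfb : fr b ≠ 0 := ((hB n t b hb.ne).2.2.2.2.2 hb15).1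
  have hodd : ∀ a : Ideal (OO n t), PrI a 2 → Odd (NI a) := by
    intro a ha
    have h1 : (NI a).Coprime 2 := (pni 2 a two_pos).1 ha
    exact Nat.coprime_two_right.1 h1
  refine ⟨hF, hmb, hνm, hνb, nmul m b, hodd m hm2, hodd b hb2, hm15, ⟨hb.ne, hb15⟩, hm2, hb2,
    hmbF, (pni F (m * b) hm.pos).1 hmbF, ⟨hmb, hmbF⟩, hfb, ?_⟩
  intro h
  have h1 := ((hL n t F (m * b) hm.pos hmb hmbF).1 1).1 (by
    rw [toC_one]
    exact h)
  obtain ⟨h3, -⟩ := (nat_dvd_iff F (1 : OO n t)).1 h1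
  rw [QuadraticAlgebra.re_one] at h3
  have h4 := Int.le_of_dvd one_pos h3
  omega

end Pool.Agent.DS.C
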