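import Pool.Agent.Lib.DS.C.Spec

/-!
# Part C for SqN (general modulus), module Hom (helper61): homogeneity
-/

set_option autoImplicit false

open Filter Topology
open scoped Pointwise

noncomputable section

namespace Pool.Agent.DS.C

open Pool.Agent.MuZ Pool.Agent.FW NumberField Pool.Agent.DN Pool.Agent.DN.C Pool.Agent.DS
open Pool.Agent.DI (io ofC io_inj exists_io io_ofC ofC_io VP MP UP TP ex sqr sqr_sq kap)

variable {n t : ℕ}

private theorem Hom_ne [SqN n t] (h2 : S_O2) {a b : Ideal (OO n t)} (ha : a ≠ ⊥) (hb : b ≠ ⊥) :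
    a * b ≠ ⊥ := by
  obtain ⟨-, -, -, -, h5, h6, -⟩ := h2 n t
  intro h
  have h1 := (h6 _).2 h
  rw [h5] at h1
  rcases Nat.mul_eq_zero.1 h1 with h1 | h1
  · exact ha ((h6 _).1 h1)
  · exact hb ((h6 _).1 h1)

private theorem Hom_sp {α : OO n t} (hα : α ≠ 0) : sp α ≠ ⊥ := by
  intro h
  exact hα (Ideal.span_singleton_eq_bot.1 h)

private theorem Hom_set [SqN n t] {α : OO n t} (hα : α ≠ 0) (b : Ideal (OO n t)) (x : ℂ) :
    cs x (sp α * b) = (fun v => (toC α)⁻¹ * v) '' cs (toC α * x) b := by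
  have h0 : toC α ≠ 0 := toC_ne hα
  ext v
  constructor
  · intro hv
    refine ⟨toC α * v, ?_, inv_mul_cancel_left₀ h0 v⟩
    have h1 : toC α * (v - x) ∈ Lam b := lam_sp.1 hv
    change toC α * v - toC α * x ∈ Lam b
    rwa [← mul_sub]
  · rintro ⟨u, hu, rfl⟩
    change (toC α)⁻¹ * u - x ∈ Lam (sp α * b)
    rw [lam_sp, mul_sub, mul_inv_cancel_left₀ h0]
    exact hu

private theorem Hom_main [SqN n t] (hR : S_Red) (hT : S_Tt) (h2 : S_O2) {F : ℕ} (hf : 0 < F)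
    {b : Ideal (OO n t)} (hb : b ≠ ⊥) {α : OO n t} (hα : α ≠ 0) (z : ℂ) :
    Tc F (sp α * b) 1 z = toC α * TT (cs (toC α / F) b) ((F : ℝ) ^ 2 * NI b) z := by
  have hT1 : ∀ (A : Set ℂ) (c : ℂ) (w : ℝ) (z : ℂ), c ≠ 0 →
      TT ((fun v => c * v) '' A) w z = c⁻¹ * TT A (w * ‖c‖ ^ 2) z := hT.1
  have h0 : toC α ≠ 0 := toC_ne hα
  rw [(hR n t F (sp α * b) hf (Hom_ne h2 (Hom_sp hα) hb) 1).2.2.1 z, Hom_set hα,
    hT1 _ _ _ _ (inv_ne_zero h0), inv_inv]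
  have e1 : toC α * (((1 : ℤ) : ℂ) / (F : ℂ)) = toC α / F := by
    rw [Int.cast_one, mul_one_div]
  have hn : ‖toC α‖ ≠ 0 := norm_ne_zero_iff.2 h0
  have e3 : ((NI (sp α) : ℕ) : ℝ) = ‖toC α‖ ^ 2 := by
    rw [← Nm_norm, ← (h2 n t).2.2.2.1 α]
    rfl
  have e2 : (F : ℝ) ^ 2 * ((NI (sp α * b) : ℕ) : ℝ) * ‖(toC α)⁻¹‖ ^ 2 = (F : ℝ) ^ 2 * NI b := by
    rw [(h2 n t).2.2.2.2.1, Nat.cast_mul, e3, norm_inv]
    field_simp
  rw [e1, e2]

private theorem Hom_cs [SqN n t] (b : Ideal (OO n t)) {F : ℕ} (hf : 0 < F) {α : OO n t}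
    (h : (F : OO n t) ∣ α - 1) : cs (toC α / F) b = cs (1 / F) b := by
  obtain ⟨u, hu⟩ := h
  have hf0 : (F : ℂ) ≠ 0 := by exact_mod_cast hf.ne'
  have e : toC α / F - 1 / F = toC u := by
    have h1 : α = 1 + (F : OO n t) * u := by rw [← hu]; ring
    rw [h1, toC_add, toC_one, toC_mul, toC_nat]
    field_simp
    ring
  have hL : toC u ∈ Lam b := fun v _ => ⟨v * u, (toC_mul v u).symm⟩
  ext v
  change v - toC α / F ∈ Lam b ↔ v - 1 / F ∈ Lam b
  have e2 : v - 1 / F = toC u + (v - toC α / F) := by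
    rw [← e]
    ring
  rw [e2, lam_add_left_iff hL]

theorem tHom (hR : S_Red) (hT : S_Tt) (h2 : S_O2) (h6 : S_O6) (hB : S_B7) (hC : S_Cnd) :
    S_Hom := by
  intro n t _ F hf0 hF2 h3
  have H1 : ∀ b : Ideal (OO n t), b ≠ ⊥ → ∀ (a : ℤ) (z : ℂ), a ≠ 0 →
      Tc F (sp (a : OO n t) * b) 1 z = a * Tc F b a z := by
    intro b hb a z ha
    have ha' : (a : OO n t) ≠ 0 := by
      intro h
      apply ha
      have := congrArg QuadraticAlgebra.re h
      rwa [re_int, QuadraticAlgebra.re_zero] at this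
    rw [Hom_main hR hT h2 hf0 hb ha', toC_int, (hR n t F b hf0 hb a).2.2.1 z]
  have H2 : ∀ b : Ideal (OO n t), b ≠ ⊥ → ∀ (α : OO n t) (z : ℂ), α ≠ 0 →
      ((F : ℕ) : OO n t) ∣ α - 1 → Tc F (sp α * b) 1 z = toC α * Tc F b 1 z := by
    intro b hb α z hα hd
    rw [Hom_main hR hT h2 hf0 hb hα, Hom_cs b hf0 hd, (hR n t F b hf0 hb 1).2.2.1 z,
      Int.cast_one]
  refine ⟨H1, H2, ?_, ?_⟩
  · intro m b hm hb a z ha hc
    have ha' : (a : OO n t) ≠ 0 := by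
      intro h
      apply ha
      have := congrArg QuadraticAlgebra.re h
      rwa [re_int, QuadraticAlgebra.re_zero] at this
    have hFB : FBg F (sp (a : OO n t) * b) := by
      refine ⟨Hom_ne h2 (Hom_sp ha') hb.ne, ?_⟩
      obtain ⟨o1, -, -, o4, -⟩ := h6 n t
      refine (o1 F _ _).2 ⟨(o4 F _ hf0).2 ?_, hb.cop⟩
      change IsCoprime (Nm (a : OO n t)) ((F : ℕ) : ℤ)
      rw [Nm_int]
      exact hc.pow_left
    refine ⟨hFB, ?_⟩
    have hmb : m * b ≠ ⊥ := Hom_ne h2 hm.ne hb.ne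
    obtain ⟨-, -, -, -, -, -, -, -, -, -, -, -, -, -, f1, -⟩ := hC n t F m b hm hb
    obtain ⟨-, -, -, -, -, -, -, -, -, -, -, -, -, -, f2, -⟩ := hC n t F m _ hm hFB
    have f3 : (a : ℂ) ≠ 0 := by exact_mod_cast ha
    unfold ThS ThM
    rw [show m * (sp (a : OO n t) * b) = sp (a : OO n t) * (m * b) from mul_left_comm _ _ _,
      H1 _ hmb a z ha, H1 _ hb.ne a _ ha]
    field_simp
  · intro m b hm hb α z hα hd
    have hmb : m * b ≠ ⊥ := Hom_ne h2 hm.ne hb.ne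
    obtain ⟨-, -, -, -, -, -, -, -, hG, -, -, -, -, -, f1, -⟩ := hC n t F m b hm hb
    obtain ⟨g, hg⟩ := h3
    have d3 : (3 : OO n t) ∣ α - 1 := by
      refine dvd_trans ⟨((5 * g : ℕ) : OO n t), ?_⟩ hd
      rw [hg]
      push_cast
      ring
    have d5 : (5 : OO n t) ∣ α - 1 := by
      refine dvd_trans ⟨((3 * g : ℕ) : OO n t), ?_⟩ hd
      rw [hg]
      push_cast
      ring
    have f2 : fr (sp α * b) = toC α * fr b :=
      (((hB n t b hb.ne).2.2 hG.cop).1 α hα d3 (Or.inl d5)).1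
    have f3 : toC α ≠ 0 := toC_ne hα
    unfold ThM
    rw [show m * (sp α * b) = sp α * (m * b) from mul_left_comm _ _ _,
      H2 _ hmb α z hα hd, H2 _ hb.ne α _ hα hd, f2]
    field_simp

end Pool.Agent.DS.C
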