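import Pool.Agent.Lib.DN.C.All
import Pool.Agent.Lib.DS.C.Cnd
import Pool.Agent.Lib.DS.C.TrS
import Pool.Agent.Lib.DS.C.CuS
import Pool.Agent.Lib.DS.C.C3
import Pool.Agent.Lib.DS.C.Val
import Pool.Agent.Lib.DS.C.Hom
import Pool.Agent.Lib.DS.C.Den
import Pool.Agent.Lib.DS.C.C1
import Pool.Agent.Lib.DS.C.C2
import Pool.Agent.Lib.DS.C.C4a
import Pool.Agent.Lib.DS.C.C4b
import Pool.Agent.Lib.DS.C.C4
import Pool.Agent.Lib.DS.C.Par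
import Pool.Agent.Lib.DS.C.C6
import Pool.Agent.Lib.DS.C.C7a
import Pool.Agent.Lib.DS.C.C7b
import Pool.Agent.Lib.DS.C.C7
import Pool.Agent.Lib.DS.C.C3v

/-!
# Part C for all imaginary quadratic fields and the general modulus: assembly (author helper33)

`aC3`, `aC3v`, `aC7` without hypotheses; `aC1`, `aC2`, `aC4`, `aC6` from `DS.S_R1`.
-/

set_option autoImplicit false

noncomputable section

namespace Pool.Agent.DS.C

open Pool.Agent.DN Pool.Agent.DS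

theorem aCnd : S_Cnd := tCnd aO2 aO6 aL6a aB1
theorem aTrS : S_TrS := tTrS DN.C.aTct aO2 aCnd
theorem aCuS : S_CuS := tCuS DN.C.aTcc DN.C.aExp aO2
theorem aC3 : S_C3 := tC3 aCuS
theorem aVal : S_Val := tVal aTrS aCuS DN.C.aExp
theorem aC3v : S_C3v := tC3v aCuS DN.C.aExp aVal aCnd
theorem aDen : S_Den := tDen
theorem aHom : S_Hom := tHom DN.C.aRed DN.C.aTt aO2 aO6 aB7 aCnd
theorem aC4a : S_C4a := tC4a DN.C.aSpl DN.C.aLt aO2 aO6 aL5 aB10 aCnd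
theorem aPar : S_Par := tPar DN.C.aLt DN.C.aRed aCnd
theorem aC7a : S_C7a := tC7a DN.C.aLt DN.C.aBas
theorem aC7b : S_C7b := tC7b aCnd DN.C.aLt aC7a
theorem aC7 : S_C7 := tC7 aC7a aC7b aPar DN.C.aLt DN.C.aTt DN.C.aRed DN.C.aDer aO2

theorem aC4b (hR1 : S_R1) : S_C4b := tC4b aC4a aL3 hR1 aCnd
theorem aC4 (hR1 : S_R1) : S_C4 := tC4 (aC4b hR1) DN.C.aUsy
theorem aC1 (hR1 : S_R1) : S_C1 := tC1 aVal aHom aDen (aC4 hR1) hR1 aCnd
theorem aC2 (hR1 : S_R1) : S_C2 := tC2 aTrS aVal DN.C.aRed aDen (aC4 hR1) DN.C.aEch aCnd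
theorem aC6 (hR1 : S_R1) : S_C6 :=
  tC6 aHom DN.C.aRed DN.C.aTt (aC4 hR1) aVal aPar aO2 aO3 aL2 aB7 aCnd

end Pool.Agent.DS.C

namespace Pool.Agent.DS

theorem aC1 (hR1 : S_R1) : S_C1 := C.aC1 hR1
theorem aC2 (hR1 : S_R1) : S_C2 := C.aC2 hR1
theorem aC3 : S_C3 := C.aC3
theorem aC3v : S_C3v := C.aC3v
theorem aC4 (hR1 : S_R1) : S_C4 := C.aC4 hR1
theorem aC6 (hR1 : S_R1) : S_C6 := C.aC6 hR1
theorem aC7 : S_C7 := C.aC7

end Pool.Agent.DS
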