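import Pool.Agent.Lib.DS.C.Spec

/-!
# Part C for SqN: the general machine for the hidden symmetries (author helper33)

`p` is `2`, `3` or `4` (more generally: `x² = 1` modulo `p` for all `x` prime to `p`), `f` is prime to `p`, `b` is prime to `p f`, `g` is a function on
`O/p`. `Lg l f b s g z` is the sum of `g(x) x⁻¹ e(N b |x|² z/l)` over the `x` in `s + f Lam b` (`Lam b/p = O/p`), written as a theta series of the lattice
`O`: `x = v/N b`, `v ∈ s N b + f b̄`. `Hg` is the smoothed combination. The matrix `(1 0; M 1)` acts on `g` through the Fourier transform on `O/p`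
(`S_Ug`). Cases: DM: `p = q = l = k = l' = 3`, `D1 = D`; DR, `n` odd: `p = q = 2`, `l = k = l' = 4`, `D1 = n`; DR, `n` even: `p = 2`, `l = 4`, `q = 4`, `k = 16`,
`l' = 8`, `s = 1`, `s' = 2`, `D1 = n/2`.
-/

set_option autoImplicit false

open Filter Topology
open scoped Pointwise

noncomputable section

namespace Pool.Agent.DS.C

open Pool.Agent.MuZ Pool.Agent.FW NumberField Pool.Agent.DN Pool.Agent.DN.C Pool.Agent.DS
open Pool.Agent.DI (io ofC io_inj exists_io io_ofC ofC_io VP MP UP TP ex)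

section Defs

variable {n t : ℕ}

/-- The finite Fourier transform of `φ` modulo `p` (with the dilation by `F0`). -/
def ftp (p F0 : ℕ) (φ : OO n t → ℂ) (u : OO n t) : ℂ :=
  rsum p fun β => φ ((F0 : OO n t) * β) * ex (-(β * cjO u).im / p)

/-- The finite Fourier transform of `a ↦ σ(p a)` modulo `F0`. -/
def sgp (p F0 : ℕ) (σ : OO n t → ℂ) (u : OO n t) : ℂ :=
  rsum F0 fun a => σ ((p : OO n t) * a) * ex (-(a * cjO u).im / F0)

open Classical in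
/-- `[v ∈ s N b + f b̄]`. -/
def s0 (f : ℕ) (b : Ideal (OO n t)) (s : ℤ) (v : OO n t) : ℂ :=
  if v - ((s * NI b : ℤ) : OO n t) ∈ sp (f : OO n t) * cjI b then 1 else 0

/-- `∑ g(x) x⁻¹ e(N b |x|² z/l)`, `x ∈ s + f Lam b`. -/
def Lg (l f : ℕ) (b : Ideal (OO n t)) (s : ℤ) (g : OO n t → ℂ) (z : ℂ) : ℂ :=
  2 * NI b * Th (fun v => s0 f b s v * g ((NI b : OO n t) * v)) (z / l / NI b)

/-- The smoothed combination. -/
def Hg (l f : ℕ) (m b : Ideal (OO n t)) (s : ℤ) (g : OO n t → ℂ) (z : ℂ) : ℂ :=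
  Lg l f (m * b) s g z - NI m * Lg l f b s g (NI m * z)

/-- The smoothed theta series without the framing: `fr b * ThM F m b`. -/
def T0 (F : ℕ) (m b : Ideal (OO n t)) (z : ℂ) : ℂ :=
  Tc F (m * b) 1 z - NI m * Tc F b 1 (NI m * z)

/-- `lim T0(r + i y)`. -/
def h0 (F : ℕ) (m b : Ideal (OO n t)) (r : ℚ) : ℂ :=
  limUnder (𝓝[>] (0 : ℝ)) (fun y => T0 F m b (r + y * Complex.I))

end Defs

/-- The conditions on `p`, `f`, `m`, `b`. -/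
structure Pf {n t : ℕ} (p f : ℕ) (m b : Ideal (OO n t)) : Prop where
  p0 : 1 < p
  f0 : 0 < f
  cop : Nat.Coprime f p
  sq : ∀ x : ℤ, IsCoprime x (p : ℤ) → (p : ℤ) ∣ x ^ 2 - 1
  m0 : m ≠ ⊥
  b0 : b ≠ ⊥
  mp : PrI m p
  bp : PrI b p

open Classical in
/-- `T` is a system of representatives (of the support of `g` modulo `p`) which are `1` modulo `f`. -/
structure Ts {n t : ℕ} (p f : ℕ) (T : Finset (OO n t)) (g : OO n t → ℂ) : Prop where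
  sys : ∀ α ∈ T, (f : OO n t) ∣ α - 1 ∧ Cop α p
  per : PerO p g
  rep : ∀ v : OO n t, (∑ α ∈ T, if (p : OO n t) ∣ v - α then g α else 0) = g v

/-- **The data of a hidden symmetry** `(p, l, s, g) ↦ (q, k, s', g')` for the matrix `(1 0; M 1)`. -/
structure Hs {n t : ℕ} (p l q k l' f M c D1 : ℕ) (s s' : ℤ) (m b : Ideal (OO n t))
    (g g' : OO n t → ℂ) : Prop where
  pf : Pf p f m b
  qf : Pf q f m b
  l0 : 0 < l
  k0 : 0 < k
  l1 : 0 < l'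
  ss : p * s' = q * s
  dd : Dk n t * p ^ 2 = D1 * (l * l')
  de : Dk n t * q ^ 2 = D1 * (k * l')
  lev : D1 * f ^ 2 * NI (m * b) * c = M
  per : PerO p g
  per' : PerO q g'
  loc : ∀ u : OO n t, l * q ^ 3 * (ftp p f g u * ex (-(c * Nm u) / l')) = k * p ^ 3 * ftp q f g' u

/-- (module DS/C/Fog; edit of DN/C/Fou; uses S_Res) **The Fourier transform modulo `p F0`.** (1), (2): `ex` of an integer is `1` (`im_per2` of DN/C/Fou).
(3): `BB` is the `rsum` over `p F0 * 1 = F0 * p` of `σ(v) φ(v) ex(-(v ū).im/(p F0))`; `S_Res` (5): `v = p α + F0 β`: `σ(v) = σ(p α)`, `φ(v) = φ(F0 β)`,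
`(v ū).im/(p F0) = (α ū).im/F0 + (β ū).im/p`. -/
def S_Fog : Prop := ∀ (n t : ℕ) [SqN n t] (p F0 : ℕ) (σ φ : OO n t → ℂ), 0 < p → 0 < F0 →
  Nat.Coprime F0 p → PerO F0 σ → PerO p φ →
    PerO F0 (sgp p F0 σ) ∧ PerO p (ftp p F0 φ) ∧
    ∀ u : OO n t, BB (fun v => σ v * φ v) (p * F0) 0 0 1 u = sgp p F0 σ u * ftp p F0 φ u

/-- (module DS/C/Ing; edit of DN/C/Inv; uses S_Gen, S_Fog) **Inversion.** `S_Gen` with modulus `p F0`, `c = 1`, `(a, b, c, d) = (0, -1, 1, 0)`, at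
`z' = -l/z`: `mob 0 (-1) 1 0 z' = -1/z' = z/l`, `(z')² = l²/z²`, `Nm u z'/(D (p F0)²) = Nm u (-1/(A z))/l'` because of `A l l' = D (p F0)²`. -/
def S_Ing : Prop := ∀ (n t : ℕ) [SqN n t] (p l l' F0 A : ℕ) (σ φ : OO n t → ℂ) (z : ℂ), 0 < p →
  0 < l → 0 < l' → 0 < F0 → Nat.Coprime F0 p → A * (l * l') = Dk n t * (p * F0) ^ 2 →
  PerO F0 σ → PerO p φ → 0 < z.im →
    Gt (fun v => σ v * φ v) (z / l) = -(l ^ 2 / (Dk n t * (p * F0) ^ 3 * z ^ 2)) *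
      Gt (fun u => sgp p F0 σ u * ftp p F0 φ u) (-1 / (A * z) / l')

/-- (module DS/C/Htg; edit of DN/C/Hid and DN/C/Hit; uses S_Ing, S_Der) **`(1 0; A c 1)` in weight 2, then in weight 1.** `z'' = z/(A c z + 1)`, `Im z'' > 0`,
`z' = -1/(A z)`, `-1/(A z'') = z' - c`. `S_Ing` at `z''` for `(p, l, φ)`: `Gt(σ φ)(z''/l) = -l²/(D (p F0)³ z''²) Gt(sgp σ ftp φ)((z' - c)/l')`, and term by term
`ex(Nm u (z' - c)/l') = ex(Nm u z'/l') ex(-(c Nm u)/l')`. `S_Ing` at `z` for `(q, k, ψ)`: `Gt(τ ψ)(z/k) = -k²/(D (q F0)³ z²) Gt(sgp τ ftp ψ)(z'/l')`. With the two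
hypotheses: `Gt(σ φ)(z''/l)/(l z''⁻²) = Gt(τ ψ)(z/k)/(k z⁻²)`, i.e. `(1/l) (z''/z)² Gt(σ φ)(z''/l) = (1/k) Gt(τ ψ)(z/k)`, `z/z'' = A c z + 1`. Weight 1: by `S_Der` (1) (`σ φ` is
periodic modulo `p F0`, `τ ψ` modulo `q F0`) the function `Th(σ φ)(z''/l) - Th(τ ψ)(z/k)` has the derivative `2 π i ((1/l) (A c z + 1)⁻² Gt(σ φ)(z''/l) - (1/k) Gt(τ ψ)(z/k)) = 0`; it
is constant (as in DN/C/Hit). `A > 0`. -/
def S_Htg : Prop := ∀ (n t : ℕ) [SqN n t] (p l q k l' F0 A : ℕ) (c : ℤ)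
  (σ τ φ ψ : OO n t → ℂ), 0 < p → 0 < l → 0 < q → 0 < k → 0 < l' → 0 < F0 → Nat.Coprime F0 p →
  Nat.Coprime F0 q → A * (l * l') = Dk n t * (p * F0) ^ 2 →
  A * (k * l') = Dk n t * (q * F0) ^ 2 → PerO F0 σ → PerO F0 τ → PerO p φ → PerO q ψ →
  (∀ u : OO n t, sgp p F0 σ u = sgp q F0 τ u) →
  (∀ u : OO n t, l * q ^ 3 * (ftp p F0 φ u * ex (-(c * Nm u) / l')) = k * p ^ 3 * ftp q F0 ψ u) →
  ∃ C : ℂ, ∀ z : ℂ, 0 < z.im →
    Th (fun v => σ v * φ v) (z / (A * c * z + 1) / l) = Th (fun v => τ v * ψ v) (z / k) + C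

/-- (module DS/C/Ug; edit of DN/C/Sym; uses S_Htg, S_O2, S_O3, S_O6) **The hidden symmetry on the upper half plane.** Let `n₁ = NI (m b)`, `ν = NI b`, `n₁ = NI m ν` (`S_O2`), prime to `p`
and `q` (`S_O6`). First term: `S_Htg` with `F0 = f n₁`, `σ = s0 f (m b) s`, `τ = s0 f (m b) s'`, `φ(v) = g(n₁ v)`, `ψ(v) = g'(n₁ v)`, `A = D1 F0²`, at `x = z/n₁`:
`z''/n₁ = x/(M n₁ x + 1)`, `M n₁ = A c`. Second: `F0 = f ν`, `A = D1 F0²`, `x = N m z/ν`, `N m z''/ν = x/((M ν/N m) x + 1)`, `M ν/N m = A c`. Note `z/l/n₁ = (z/n₁)/l`.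
Periods: `s0 f b s` is periodic modulo `f ν` (`ν O ⊆ cjI b`, `f ν u ∈ f cjI b`). The local condition: `ftp p (f x) (g(x ·)) = ftp p f g` for `x² = 1` modulo `p` (`g(x f x β) = g(f β)`,
period). `sgp p F0 (s0 f b s) = sgp q F0 (s0 f b s')`: `p a - s ν ∈ f B` iff `q a - s' ν ∈ f B` (`B = cjI b`; `p` and `q` are prime to `f` and to `ν`, `p s' = q s`:
`p (q a - s' ν) = q (p a - s ν)`; and if `p x ∈ f B` then `x ∈ f B`, since `f ν x ∈ f B` and `p` is prime to `f ν`). -/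
def S_Ug : Prop := ∀ (n t : ℕ) [SqN n t] (p l q k l' f M c D1 : ℕ) (s s' : ℤ)
  (m b : Ideal (OO n t)) (g g' : OO n t → ℂ), Hs p l q k l' f M c D1 s s' m b g g' →
  ∃ C : ℂ, ∀ z : ℂ, 0 < z.im → Hg l f m b s g (z / (M * z + 1)) = Hg k f m b s' g' z + C

/-- (module DS/C/Rdg; edit of DN/C/Rda; uses S_Lt, S_Tt, S_Der, S_Red, S_O2, S_O3, S_O6) **The combination of the `Tc` over `T`.** Let `ν = NI b` (prime to `p`, `S_O6`),
`B = cjI b`, `ν ∈ B`, `F = p f`, `w = z/l`. `Hom_main` (DN/C/Hom): `Tc F (sp α * b) 1 w = toC α * TT (cs (toC α/F) b) (F² ν) w`, `= toC α F ν ∑' v,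
[v - α ν ∈ F B]/toC v * ex(Nm v w/ν)` (as in DN/C/Rda). For `α ∈ T` (`f ∣ α - 1`): `v - α ν ∈ p f B` iff `v - ν ∈ f B` and `p ∣ v - α ν`: `(α - 1) ν ∈ f B`; if
`x = v - α ν ∈ f B`, `x = p y` then `(f ν) y ∈ f B` (`ν y ∈ B`), `u f ν + u' p = 1` with integers, so `y = u f ν y + u' x ∈ f B`, `x ∈ p f B`.
`p ∣ v - α ν` iff `p ∣ ν v - α` (`ν² = 1` modulo `p`). So `∑_(α ∈ T) g(α) [v - α ν ∈ p f B] = [v - ν ∈ f B] g(ν v)` (`Ts.rep` at `ν v`), and `Th = 1/2 ∑'`. (`α ≠ 0` by `Cop α p`.) -/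
def S_Rdg : Prop := ∀ (n t : ℕ) [SqN n t] (p l f : ℕ) (m b : Ideal (OO n t))
  (T : Finset (OO n t)) (g : OO n t → ℂ), Pf p f m b → 0 < l → Ts p f T g → ∀ z : ℂ, 0 < z.im →
    ∑ α ∈ T, g α * ((toC α)⁻¹ * Tc (p * f) (sp α * b) 1 (z / l)) = (p * f : ℕ) * Lg l f b 1 g z

/-- (module DS/C/Etg; uses S_Rdg, S_O2, S_O6) **The smoothed combination.** `m * (sp α * b) = sp α * (m * b)`; `S_Rdg` for `m b` at `z` (`Pf p f m (m b)`) and for `b` at `N m z`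
(`N m z/l = N m (z/l)`). -/
def S_Etg : Prop := ∀ (n t : ℕ) [SqN n t] (p l f : ℕ) (m b : Ideal (OO n t))
  (T : Finset (OO n t)) (g : OO n t → ℂ), Pf p f m b → 0 < l → Ts p f T g → ∀ z : ℂ, 0 < z.im →
    ∑ α ∈ T, g α * ((toC α)⁻¹ * T0 (p * f) m (sp α * b) (z / l)) = (p * f : ℕ) * Hg l f m b 1 g z

/-- (module DS/C/Lh; uses S_C3v, S_Par, S_Cnd) **The limits `h0`.** `ThM F m b z = T0 F m b z/fr b`, `fr b ≠ 0` (`S_Cnd`): multiply `S_C3v` by `fr b`;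
the period: `S_Par` (2) and the limit (as `C6_lp` in DS/C/C6). -/
def S_Lh : Prop := ∀ (n t : ℕ) [SqN n t] (F : ℕ) (m b : Ideal (OO n t)), FMg F m → FBg F b →
  (∀ r : ℚ, Tendsto (fun y : ℝ => T0 F m b (r + y * Complex.I)) (𝓝[>] 0) (𝓝 (h0 F m b r))) ∧
  (∀ a b' c d : ℤ, a * d - b' * c = 1 → ∀ r : ℚ, (c : ℚ) * r + d ≠ 0 →
    Tendsto (fun y : ℝ => T0 F m b ((a * (r + y * Complex.I) + b') /
      (c * (r + y * Complex.I) + d))) (𝓝[>] 0) (𝓝 (h0 F m b ((a * r + b') / (c * r + d))))) ∧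
  (∀ l : ℕ, 0 < l → Dvl t F l →
    (∀ z : ℂ, 0 < z.im → T0 F m b (z + 1 / l) = ex (NI (m * b) / l) * T0 F m b z) ∧
    ∀ r : ℚ, h0 F m b (r + 1 / l) = ex (NI (m * b) / l) * h0 F m b r) ∧
  (∀ z : ℂ, ThM F m b z = T0 F m b z / fr b) ∧ ∀ r : ℚ, hM F m b r = h0 F m b r / fr b

/-- (module DS/C/Elm; uses S_Lh, S_O6) **The limits of the combinations over `T`**, along `z = r + i y` and along `(1 0; M 1)(r + i y)` (`z''/l = (z/l)/((l M) (z/l) + 1)`: `S_Lh` (2) for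
`(1 0; l M 1)` at `r/l`; `y/l → 0`). `FBg (p f) (sp α * b)` for `α ∈ T` (`S_O6`; `α` is prime to `p f`). -/
def S_Elm : Prop := ∀ (n t : ℕ) [SqN n t] (p l f M : ℕ) (m b : Ideal (OO n t))
  (T : Finset (OO n t)) (g : OO n t → ℂ), 0 < l → FMg (p * f) m → FBg (p * f) b →
  (∀ α ∈ T, (f : OO n t) ∣ α - 1 ∧ Cop α p) → (∀ α ∈ T, FBg (p * f) (sp α * b)) ∧ ∀ r : ℚ,
    Tendsto (fun y : ℝ => ∑ α ∈ T, g α * ((toC α)⁻¹ *
        T0 (p * f) m (sp α * b) ((r + y * Complex.I) / l))) (𝓝[>] 0)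
      (𝓝 (∑ α ∈ T, g α * ((toC α)⁻¹ * h0 (p * f) m (sp α * b) (r / l)))) ∧
    ((M : ℚ) * r + 1 ≠ 0 → Tendsto (fun y : ℝ => ∑ α ∈ T, g α * ((toC α)⁻¹ *
        T0 (p * f) m (sp α * b) ((r + y * Complex.I) / (M * (r + y * Complex.I) + 1) / l)))
        (𝓝[>] 0)
      (𝓝 (∑ α ∈ T, g α * ((toC α)⁻¹ * h0 (p * f) m (sp α * b) (r / (M * r + 1) / l)))))

/-- (module DS/C/Uvl; uses S_Ug, S_Etg, S_Elm) **The hidden symmetry of the values** (both functions over the same `T`). `S_Ug` and `S_Etg` (for `g` at `z''`, for `g'` at `z`; `p f ≠ 0`), the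
limit `y → 0` (`S_Elm`); the constant: `r = 0`. -/
def S_Uvl : Prop := ∀ (n t : ℕ) [SqN n t] (p l l' f M c D1 : ℕ) (m b : Ideal (OO n t))
  (T : Finset (OO n t)) (g g' : OO n t → ℂ), Hs p l p l l' f M c D1 1 1 m b g g' →
  Ts p f T g → Ts p f T g' → FMg (p * f) m → FBg (p * f) b → ∀ r : ℚ, (M : ℚ) * r + 1 ≠ 0 →
    ∑ α ∈ T, g α * ((toC α)⁻¹ * h0 (p * f) m (sp α * b) (r / (M * r + 1) / l)) -
        ∑ α ∈ T, g α * ((toC α)⁻¹ * h0 (p * f) m (sp α * b) 0) =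
      ∑ α ∈ T, g' α * ((toC α)⁻¹ * h0 (p * f) m (sp α * b) (r / l)) -
        ∑ α ∈ T, g' α * ((toC α)⁻¹ * h0 (p * f) m (sp α * b) 0)

end Pool.Agent.DS.C
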