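import Pool.Agent.Lib.DS.C.Spec9

/-!
# Part C for SqN, hidden symmetries, module Etg: the smoothed combination over `T`
-/

set_option autoImplicit false

open Filter Topology
open scoped Pointwise

noncomputable section

namespace Pool.Agent.DS.C

open Pool.Agent.MuZ Pool.Agent.FW NumberField Pool.Agent.DN Pool.Agent.DN.C Pool.Agent.DS
open Pool.Agent.DI (io ofC io_inj exists_io io_ofC ofC_io VP MP UP TP ex)

theorem tEtg (hA : S_Rdg) (h2 : S_O2) (h6 : S_O6) : S_Etg := by
  intro n t _ p l f m b T g hp hl hT z hz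
  have hm0 : 0 < NI m := Nat.pos_of_ne_zero fun h => hp.m0 (((h2 n t).2.2.2.2.2.1 m).1 h)
  have hmb : Pf p f m (m * b) :=
    { p0 := hp.p0
      f0 := hp.f0
      cop := hp.cop
      sq := hp.sq
      m0 := hp.m0
      b0 := fun h => (Ideal.mul_eq_bot.1 h).elim hp.m0 hp.b0
      mp := hp.mp
      bp := ((h6 n t).1 p m b).2 ⟨hp.mp, hp.bp⟩ }
  have hz' : 0 < ((NI m : ℂ) * z).im := by
    rw [Complex.mul_im, Complex.natCast_re, Complex.natCast_im, zero_mul, add_zero]
    exact mul_pos (by exact_mod_cast hm0) hz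
  have e1 := hA n t p l f m (m * b) T g hmb hl hT z hz
  have e2 := hA n t p l f m b T g hp hl hT ((NI m : ℂ) * z) hz'
  have e3 : ∀ α ∈ T, g α * ((toC α)⁻¹ * T0 (p * f) m (sp α * b) (z / l)) =
      g α * ((toC α)⁻¹ * Tc (p * f) (sp α * (m * b)) 1 (z / l)) -
        NI m * (g α * ((toC α)⁻¹ * Tc (p * f) (sp α * b) 1 (NI m * z / l))) := by
    intro α _
    unfold T0
    rw [show m * (sp α * b) = sp α * (m * b) from mul_left_comm _ _ _, mul_div_assoc]
    ring
  rw [Finset.sum_congr rfl e3, Finset.sum_sub_distrib, ← Finset.mul_sum, e1, e2]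
  unfold Hg
  ring

end Pool.Agent.DS.C
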