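import Pool.Agent.Lib.DS.C.Spec9

/-!
# Part C, general machine: Fog, the Fourier transform modulo `p F0` (author helper71)
-/

set_option autoImplicit false

open Filter Topology
open scoped Pointwise

noncomputable section

namespace Pool.Agent.DS.C

open Pool.Agent.MuZ Pool.Agent.FW NumberField Pool.Agent.DN Pool.Agent.DN.C Pool.Agent.DS
open Pool.Agent.DI (io ofC io_inj exists_io io_ofC ofC_io VP MP UP TP ex)

variable {n t : ℕ}

private lemma ex_add' (x y : ℂ) : ex (x + y) = ex x * ex y := by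
  unfold ex
  rw [mul_add, Complex.exp_add]

private lemma ex_int' (n' : ℤ) : ex (n' : ℂ) = 1 := by
  unfold ex
  have h : 2 * (Real.pi : ℂ) * Complex.I * (n' : ℂ) = (n' : ℂ) * (2 * Real.pi * Complex.I) := by ring
  rw [h]
  exact Complex.exp_int_mul_two_pi_mul_I n'

private lemma ex_congr' {x y : ℂ} (n' : ℤ) (h : x = y + n') : ex x = ex y := by
  rw [h, ex_add', ex_int', mul_one]

private lemma rsum_congr' (m : ℕ) {F G : OO n t → ℂ} (h : ∀ v, F v = G v) : rsum m F = rsum m G := by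
  have : F = G := funext h
  rw [this]

private lemma rsum_mul' (m : ℕ) (x : ℂ) (F : OO n t → ℂ) :
    rsum m (fun v => x * F v) = x * rsum m F := by
  unfold rsum
  simp only [Finset.mul_sum]

private lemma rsum_mul_r (m : ℕ) (x : ℂ) (F : OO n t → ℂ) :
    rsum m (fun v => F v * x) = rsum m F * x := by
  unfold rsum
  simp only [Finset.sum_mul]

private lemma im_per (g : ℕ) (v w u : OO n t) :
    ((v + (g : OO n t) * w) * cjO u).im = (v * cjO u).im + g * (w * cjO u).im := by
  simp only [cjO, re_mul, im_mul, QuadraticAlgebra.re_add, QuadraticAlgebra.im_add,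
    re_nat, im_nat]
  ring

private lemma im_per2 (g : ℕ) (v u w : OO n t) :
    (v * cjO (u + (g : OO n t) * w)).im = (v * cjO u).im + g * (v * cjO w).im := by
  simp only [cjO, re_mul, im_mul, QuadraticAlgebra.re_add, QuadraticAlgebra.im_add,
    re_nat, im_nat]
  ring

private lemma im_lin (p g : ℕ) (a b u : OO n t) :
    (((p : OO n t) * a + (g : OO n t) * b) * cjO u).im = p * (a * cjO u).im + g * (b * cjO u).im := by
  simp only [cjO, re_mul, im_mul, QuadraticAlgebra.re_add, QuadraticAlgebra.im_add,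
    re_nat, im_nat]
  ring

/-- the transform is periodic -/
private lemma tr_per {F0 : ℕ} (hF : 0 < F0) (τ : OO n t → ℂ) :
    PerO F0 (fun u : OO n t => rsum F0 fun a => τ a * ex (-(a * cjO u).im / F0)) := by
  intro u w
  have hF' : (F0 : ℂ) ≠ 0 := by exact_mod_cast hF.ne'
  refine rsum_congr' F0 fun a => ?_
  congr 1
  refine ex_congr' (-(a * cjO w).im) ?_
  rw [im_per2]
  push_cast
  field_simp
  ring

/-- the summand -/
private def FF (σ φ : OO n t → ℂ) (p F0 : ℕ) (u v : OO n t) : ℂ :=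
  σ v * φ v * ex (-(v * cjO u).im / (p * F0))

private lemma BB_eq (σ φ : OO n t → ℂ) (p F0 : ℕ) (u : OO n t) :
    BB (fun v => σ v * φ v) (p * F0) 0 0 1 u = rsum (F0 * p) (FF σ φ p F0 u) := by
  unfold BB
  rw [show p * F0 * 1 = F0 * p by ring]
  refine rsum_congr' _ fun v => ?_
  unfold FF
  congr 2
  push_cast
  simp only [zero_mul, zero_div, mul_one, add_zero, zero_sub, neg_div]

private lemma FF_per {σ φ : OO n t → ℂ} {p F0 : ℕ} (hp : 0 < p) (hF : 0 < F0) (hσ : PerO F0 σ)
    (hφ : PerO p φ) (u : OO n t) : PerO (F0 * p) (FF σ φ p F0 u) := by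
  intro v w
  have hF' : (F0 : ℂ) ≠ 0 := by exact_mod_cast hF.ne'
  have hp' : (p : ℂ) ≠ 0 := by exact_mod_cast hp.ne'
  unfold FF
  have e1 : σ (v + ((F0 * p : ℕ) : OO n t) * w) = σ v := by
    have h2 : ((F0 * p : ℕ) : OO n t) * w = (F0 : OO n t) * ((p : OO n t) * w) := by push_cast; ring
    rw [h2, hσ]
  have e2 : φ (v + ((F0 * p : ℕ) : OO n t) * w) = φ v := by
    have h2 : ((F0 * p : ℕ) : OO n t) * w = (p : OO n t) * ((F0 : OO n t) * w) := by push_cast; ring
    rw [h2, hφ]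
  rw [e1, e2]
  congr 1
  refine ex_congr' (-(w * cjO u).im) ?_
  rw [im_per]
  push_cast
  field_simp
  ring

private lemma FF_split {σ φ : OO n t → ℂ} {p F0 : ℕ} (hp : 0 < p) (hF : 0 < F0) (hσ : PerO F0 σ)
    (hφ : PerO p φ) (u a b : OO n t) :
    FF σ φ p F0 u ((p : OO n t) * a + (F0 : OO n t) * b) =
      (σ ((p : OO n t) * a) * ex (-(a * cjO u).im / F0)) *
        (φ ((F0 : OO n t) * b) * ex (-(b * cjO u).im / p)) := by
  have hF' : (F0 : ℂ) ≠ 0 := by exact_mod_cast hF.ne'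
  have hp' : (p : ℂ) ≠ 0 := by exact_mod_cast hp.ne'
  unfold FF
  have e2 : φ ((p : OO n t) * a + (F0 : OO n t) * b) = φ ((F0 : OO n t) * b) := by
    rw [add_comm, hφ]
  rw [hσ, e2, im_lin]
  have e3 : (-(((p * (a * cjO u).im + F0 * (b * cjO u).im : ℤ) : ℂ)) / (p * F0) : ℂ) =
      -((a * cjO u).im : ℂ) / F0 + -((b * cjO u).im : ℂ) / p := by
    push_cast
    field_simp
    ring
  rw [e3, ex_add']
  ring

theorem tFog (hR : Pool.Agent.DN.C.S_Res) : S_Fog := by
  intro n t _ p F0 σ φ hp hF hcop hσ hφ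
  obtain ⟨-, -, -, -, h5⟩ := hR n t
  refine ⟨tr_per hF fun a => σ ((p : OO n t) * a), tr_per hp fun a => φ ((F0 : OO n t) * a),
    fun u => ?_⟩
  rw [BB_eq, h5 F0 p _ hF hp hcop (FF_per hp hF hσ hφ u)]
  have e1 : (rsum F0 fun α : OO n t => rsum p fun β : OO n t =>
      FF σ φ p F0 u ((p : OO n t) * α + (F0 : OO n t) * β)) =
      rsum F0 fun α : OO n t => (σ ((p : OO n t) * α) * ex (-(α * cjO u).im / F0)) * ftp p F0 φ u := by
    refine rsum_congr' F0 fun α => ?_
    unfold ftp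
    rw [← rsum_mul']
    exact rsum_congr' p fun β => FF_split hp hF hσ hφ u α β
  rw [e1, rsum_mul_r]
  rfl

end Pool.Agent.DS.C
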