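import Pool.Agent.Lib.DS.C.Spec9

/-!
# THEOREMS DM, DR (MP_d0239a_nt), Part C, module Htg: `(1 0; A c 1)` in weight 2 and 1

Author helper2.
-/

set_option autoImplicit false

open Filter Topology
open scoped Pointwise

noncomputable section

namespace Pool.Agent.DS.C

open Pool.Agent.MuZ Pool.Agent.FW NumberField Pool.Agent.DN Pool.Agent.DN.C Pool.Agent.DS
open Pool.Agent.DI (io ofC io_inj exists_io io_ofC ofC_io VP MP UP TP ex)

/-- The discriminant is not `0`. -/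
private theorem Htg_D (n t : ℕ) [h : SqN n t] : Dk n t ≠ 0 := by
  unfold Dk
  rcases h.out with ⟨rfl, h2, -⟩ | ⟨rfl, h2, -⟩ <;> omega

/-- `Im (z/(k z + 1)) > 0` for an integer `k`. -/
private theorem Htg_den (k : ℤ) {z : ℂ} (hz : 0 < z.im) : (k : ℂ) * z + 1 ≠ 0 := by
  intro h0
  have h1 := congrArg Complex.im h0
  have h2 := congrArg Complex.re h0
  simp only [Complex.add_im, Complex.mul_im, Complex.intCast_re, Complex.intCast_im, zero_mul,
    add_zero, Complex.zero_im, Complex.one_im] at h1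
  simp only [Complex.add_re, Complex.mul_re, Complex.intCast_re, Complex.intCast_im, zero_mul,
    sub_zero, Complex.zero_re, Complex.one_re] at h2
  have hc : (k : ℝ) = 0 := by
    rcases mul_eq_zero.1 h1 with h3 | h3
    · exact h3
    · exact absurd h3 hz.ne'
  rw [hc, zero_mul, zero_add] at h2
  exact one_ne_zero h2

private theorem Htg_im (k : ℤ) {z : ℂ} (hz : 0 < z.im) : 0 < (z / ((k : ℂ) * z + 1)).im := by
  have hw := Htg_den k hz
  have hn : 0 < Complex.normSq ((k : ℂ) * z + 1) := Complex.normSq_pos.2 hw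
  have e : (z / ((k : ℂ) * z + 1)).im = z.im / Complex.normSq ((k : ℂ) * z + 1) := by
    rw [Complex.div_im]
    simp only [Complex.add_im, Complex.mul_im, Complex.intCast_re, Complex.intCast_im, zero_mul,
      add_zero, Complex.add_re, Complex.mul_re, sub_zero, Complex.one_re, Complex.one_im]
    rw [← sub_div]
    congr 1
    ring
  rw [e]
  exact div_pos hz hn

private theorem Htg_half {l : ℕ} (hl : 0 < l) {z : ℂ} (hz : 0 < z.im) : 0 < (z / l).im := by
  rw [Complex.div_natCast_im]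
  have : (0 : ℝ) < l := by exact_mod_cast hl
  exact div_pos hz this

private theorem Htg_deriv (k : ℤ) (l : ℕ) {z : ℂ} (hz : 0 < z.im) :
    HasDerivAt (fun z : ℂ => z / ((k : ℂ) * z + 1) / l) (1 / ((k : ℂ) * z + 1) ^ 2 / l) z := by
  have hw := Htg_den k hz
  have h2 : HasDerivAt (fun z : ℂ => (k : ℂ) * z + 1) (k : ℂ) z := by
    simpa using ((hasDerivAt_id z).const_mul (k : ℂ)).add_const (1 : ℂ)
  have h3 := ((hasDerivAt_id z).div h2 hw).div_const (l : ℂ)
  have e : (1 * ((k : ℂ) * z + 1) - id z * k) / ((k : ℂ) * z + 1) ^ 2 / (l : ℂ) =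
      1 / ((k : ℂ) * z + 1) ^ 2 / l := by
    congr 2
    simp only [id]
    ring
  rw [e] at h3
  exact h3

/-- The product is periodic. -/
private theorem Htg_per {n t : ℕ} (p F0 : ℕ) (σ φ : OO n t → ℂ) (hσ : PerO F0 σ) (hφ : PerO p φ) :
    PerO (p * F0) fun v => σ v * φ v := by
  intro v u
  have h1 : σ (v + ((p * F0 : ℕ) : OO n t) * u) = σ v := by
    have e : v + ((p * F0 : ℕ) : OO n t) * u = v + (F0 : OO n t) * ((p : OO n t) * u) := by
      push_cast
      ring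
    rw [e]
    exact hσ v _
  have h2 : φ (v + ((p * F0 : ℕ) : OO n t) * u) = φ v := by
    have e : v + ((p * F0 : ℕ) : OO n t) * u = v + (p : OO n t) * ((F0 : OO n t) * u) := by
      push_cast
      ring
    rw [e]
    exact hφ v _
  exact congrArg₂ (· * ·) h1 h2

/-- The exponential of the translation. -/
private theorem Htg_ex (N c : ℤ) (l' : ℕ) (w : ℂ) :
    ex (N * ((w - c) / l')) = ex (-(c * N) / l') * ex (N * (w / l')) := by
  unfold ex
  rw [← Complex.exp_add]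
  congr 1
  ring

/-- The translation by `c/l'`. -/
private theorem Htg_sh {n t : ℕ} (S φ ψ : OO n t → ℂ) (l' : ℕ) (c : ℤ) (x y w : ℂ)
    (h : ∀ u : OO n t, x * (φ u * ex (-(c * Nm u) / l')) = y * ψ u) :
    x * Gt (fun u => S u * φ u) ((w - c) / l') = y * Gt (fun u => S u * ψ u) (w / l') := by
  have h4 : ∀ v : OO n t, x * (S v * φ v * toC (cjO v) * ex (Nm v * ((w - c) / l'))) =
      y * (S v * ψ v * toC (cjO v) * ex (Nm v * (w / l'))) := by
    intro v
    rw [Htg_ex]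
    linear_combination S v * toC (cjO v) * ex (Nm v * (w / l')) * h v
  unfold Gt
  have h5 : x * ∑' v : OO n t, S v * φ v * toC (cjO v) * ex (Nm v * ((w - c) / l')) =
      y * ∑' v : OO n t, S v * ψ v * toC (cjO v) * ex (Nm v * (w / l')) := by
    rw [← tsum_mul_left, ← tsum_mul_left]
    exact tsum_congr h4
  linear_combination (1 / 2 : ℂ) * h5

/-- **Weight 2.** -/
private theorem Htg_two (hI : S_Ing) (n t : ℕ) [SqN n t] (p l q k l' F0 A : ℕ) (c : ℤ)
    (σ τ φ ψ : OO n t → ℂ) (hp : 0 < p) (hl : 0 < l) (hq : 0 < q) (hk : 0 < k) (hl' : 0 < l')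
    (hF : 0 < F0) (hFp : Nat.Coprime F0 p) (hFq : Nat.Coprime F0 q)
    (hA : A * (l * l') = Dk n t * (p * F0) ^ 2) (hA' : A * (k * l') = Dk n t * (q * F0) ^ 2)
    (hσ : PerO F0 σ) (hτ : PerO F0 τ) (hφ : PerO p φ) (hψ : PerO q ψ)
    (hsg : ∀ u : OO n t, sgp p F0 σ u = sgp q F0 τ u)
    (hloc : ∀ u : OO n t,
      l * q ^ 3 * (ftp p F0 φ u * ex (-(c * Nm u) / l')) = k * p ^ 3 * ftp q F0 ψ u)
    (j : ℤ) (hj : (j : ℂ) = A * c) (z : ℂ) (hz : 0 < z.im) :
    k * Gt (fun v => σ v * φ v) (z / ((j : ℂ) * z + 1) / l) =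
      l * ((j : ℂ) * z + 1) ^ 2 * Gt (fun v => τ v * ψ v) (z / k) := by
  have hA0 : (A : ℂ) ≠ 0 := by
    have : A ≠ 0 := by
      rintro rfl
      rw [zero_mul] at hA
      have h1 : Dk n t * (p * F0) ^ 2 ≠ 0 :=
        mul_ne_zero (Htg_D n t) (pow_ne_zero 2 (mul_ne_zero hp.ne' hF.ne'))
      exact h1 hA.symm
    exact_mod_cast this
  have hD0 : (Dk n t : ℂ) ≠ 0 := by exact_mod_cast Htg_D n t
  have hp0 : (p : ℂ) ≠ 0 := by exact_mod_cast hp.ne'
  have hq0 : (q : ℂ) ≠ 0 := by exact_mod_cast hq.ne'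
  have hl0 : (l : ℂ) ≠ 0 := by exact_mod_cast hl.ne'
  have hk0 : (k : ℂ) ≠ 0 := by exact_mod_cast hk.ne'
  have hF0 : (F0 : ℂ) ≠ 0 := by exact_mod_cast hF.ne'
  have hz0 : z ≠ 0 := by
    rintro rfl
    simp at hz
  have hw := Htg_den j hz
  have e1 := hI n t p l l' F0 A σ φ _ hp hl hl' hF hFp hA hσ hφ (Htg_im j hz)
  have e2 := hI n t q k l' F0 A τ ψ z hq hk hl' hF hFq hA' hτ hψ hz
  have e3 : -1 / ((A : ℂ) * (z / ((j : ℂ) * z + 1))) = -1 / ((A : ℂ) * z) - c := by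
    rw [hj] at hw ⊢
    field_simp
    ring
  have e4 : (fun u => sgp p F0 σ u * ftp p F0 φ u) = fun u => sgp q F0 τ u * ftp p F0 φ u := by
    funext u
    rw [hsg]
  rw [e3, e4] at e1
  have e5 := Htg_sh (sgp q F0 τ) (ftp p F0 φ) (ftp q F0 ψ) l' c (l * q ^ 3) (k * p ^ 3)
    (-1 / ((A : ℂ) * z)) hloc
  obtain ⟨X, hX⟩ : ∃ X, X = Gt (fun u => sgp q F0 τ u * ftp p F0 φ u)
      ((-1 / ((A : ℂ) * z) - c) / l') := ⟨_, rfl⟩
  obtain ⟨Y, hY⟩ : ∃ Y, Y = Gt (fun u => sgp q F0 τ u * ftp q F0 ψ u)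
      (-1 / ((A : ℂ) * z) / l') := ⟨_, rfl⟩
  rw [← hX] at e1 e5
  rw [← hY] at e2 e5
  have e6 : X = (k * p ^ 3 * Y) / (l * q ^ 3) := by
    rw [← e5]
    field_simp
  rw [e1, e2, e6]
  field_simp

theorem tHtg (hI : S_Ing) (hD : S_Der) : S_Htg := by
  intro n t _ p l q k l' F0 A c σ τ φ ψ hp hl hq hk hl' hF hFp hFq hA hA' hσ hτ hφ hψ hsg hloc
  obtain ⟨hT, -, -⟩ := hD n t (p * F0) (fun v => σ v * φ v) (Nat.mul_pos hp hF)
    (Htg_per p F0 σ φ hσ hφ)
  obtain ⟨hU, -, -⟩ := hD n t (q * F0) (fun v => τ v * ψ v) (Nat.mul_pos hq hF)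
    (Htg_per q F0 τ ψ hτ hψ)
  obtain ⟨j, hj⟩ : ∃ j : ℤ, (j : ℂ) = A * c := ⟨(A : ℤ) * c, by push_cast; ring⟩
  rw [← hj]
  have hl0 : (l : ℂ) ≠ 0 := by exact_mod_cast hl.ne'
  have hk0 : (k : ℂ) ≠ 0 := by exact_mod_cast hk.ne'
  have hder : ∀ w : ℂ, 0 < w.im → HasDerivAt
      (fun w => Th (fun v => σ v * φ v) (w / ((j : ℂ) * w + 1) / l) -
        Th (fun v => τ v * ψ v) (w / k)) 0 w := by
    intro w hw
    have h1 := (hT _ (Htg_half hl (Htg_im j hw))).comp w (Htg_deriv j l hw)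
    have h2 := (hU (w / k) (Htg_half hk hw)).comp w ((hasDerivAt_id w).div_const (k : ℂ))
    have h3 := h1.sub h2
    have h4 := Htg_two hI n t p l q k l' F0 A c σ τ φ ψ hp hl hq hk hl' hF hFp hFq hA hA' hσ hτ
      hφ hψ hsg hloc j hj w hw
    have h5 := Htg_den j hw
    have e : 2 * (Real.pi : ℂ) * Complex.I * Gt (fun v => σ v * φ v) (w / ((j : ℂ) * w + 1) / l) *
        (1 / ((j : ℂ) * w + 1) ^ 2 / l) -
        2 * (Real.pi : ℂ) * Complex.I * Gt (fun v => τ v * ψ v) (w / k) * (1 / k) = 0 := by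
      have h6 : Gt (fun v => σ v * φ v) (w / ((j : ℂ) * w + 1) / l) =
          l * ((j : ℂ) * w + 1) ^ 2 * Gt (fun v => τ v * ψ v) (w / k) / k := by
        rw [← h4]
        field_simp
      rw [h6]
      field_simp
      ring
    rw [e] at h3
    exact h3
  have hopen : IsOpen {w : ℂ | 0 < w.im} := isOpen_lt continuous_const Complex.continuous_im
  have hpre : IsPreconnected {w : ℂ | 0 < w.im} := (convex_halfSpace_im_gt 0).isPreconnected
  refine ⟨Th (fun v => σ v * φ v) (Complex.I / ((j : ℂ) * Complex.I + 1) / l) -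
    Th (fun v => τ v * ψ v) (Complex.I / k), fun z hz => ?_⟩
  have hconst := hopen.is_const_of_deriv_eq_zero hpre
    (fun w hw => (hder w hw).differentiableAt.differentiableWithinAt)
    (fun w hw => (hder w hw).deriv) (x := z) (y := Complex.I) hz
    (by change 0 < Complex.I.im; rw [Complex.I_im]; exact one_pos)
  linear_combination hconst

end Pool.Agent.DS.C
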