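import Pool.Agent.Lib.DS.C.Spec9

/-!
# Part C for SqN, module Ing: the inversion `z ↦ -1/z`
-/

set_option autoImplicit false

open Filter Topology
open scoped Pointwise

noncomputable section

namespace Pool.Agent.DS.C

open Pool.Agent.MuZ Pool.Agent.FW NumberField Pool.Agent.DN Pool.Agent.DN.C Pool.Agent.DS
open Pool.Agent.DI (io ofC io_inj exists_io io_ofC ofC_io VP MP UP TP ex)

private lemma Ing_im (l : ℕ) (hl : 0 < l) (z : ℂ) (hz : 0 < z.im) : 0 < (-(l : ℂ) / z : ℂ).im := by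
  have hz0 : z ≠ 0 := by
    rintro rfl
    simp at hz
  have hn : 0 < Complex.normSq z := Complex.normSq_pos.2 hz0
  have hl' : (0 : ℝ) < l := by exact_mod_cast hl
  have h : (-(l : ℂ) / z : ℂ).im = l * z.im / Complex.normSq z := by
    rw [Complex.div_im]
    simp
    ring
  rw [h]
  positivity

private lemma Ing_per {n t : ℕ} (p F0 : ℕ) (σ φ : OO n t → ℂ)
    (hσ : PerO F0 σ) (hφ : PerO p φ) : PerO (p * F0) (fun v => σ v * φ v) := by
  intro v u
  have e1 : v + ((p * F0 : ℕ) : OO n t) * u = v + (F0 : OO n t) * (p * u) := by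
    push_cast
    ring
  have e2 : v + ((p * F0 : ℕ) : OO n t) * u = v + (p : OO n t) * (F0 * u) := by
    push_cast
    ring
  have h1 : σ (v + ((p * F0 : ℕ) : OO n t) * u) = σ v := by rw [e1, hσ]
  have h2 : φ (v + ((p * F0 : ℕ) : OO n t) * u) = φ v := by rw [e2, hφ]
  change σ (v + ((p * F0 : ℕ) : OO n t) * u) * φ (v + ((p * F0 : ℕ) : OO n t) * u) = σ v * φ v
  rw [h1, h2]

/-- **The inversion.** -/
theorem tIng (hG : S_Gen) (hF : S_Fog) : S_Ing := by
  intro n t _ p l l' F0 A σ φ z hp hl hl' hF0 hcop hA hσ hφ hz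
  have hz0 : z ≠ 0 := by
    rintro rfl
    simp at hz
  have hF0C : (F0 : ℂ) ≠ 0 := by exact_mod_cast hF0.ne'
  have hpC : (p : ℂ) ≠ 0 := by exact_mod_cast hp.ne'
  have hlC : (l : ℂ) ≠ 0 := by exact_mod_cast hl.ne'
  have hlC' : (l' : ℂ) ≠ 0 := by exact_mod_cast hl'.ne'
  have hAC : (A : ℂ) * (l * l') = Dk n t * (p * F0) ^ 2 := by exact_mod_cast hA
  obtain ⟨-, -, h2⟩ := hF n t p F0 σ φ hp hF0 hcop hσ hφ
  have hg := hG n t (p * F0) 1 0 (-1) 0 (fun v => σ v * φ v) (-(l : ℂ) / z)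
    (Nat.mul_pos hp hF0) one_pos (Ing_per p F0 σ φ hσ hφ) (by norm_num) (Ing_im l hl z hz)
  have hm : mob 0 (-1) ((1 : ℕ) : ℤ) 0 (-(l : ℂ) / z) = z / l := by
    unfold mob
    push_cast
    rw [zero_mul, zero_add, one_mul, add_zero,
      div_eq_div_iff (div_ne_zero (neg_ne_zero.2 hlC) hz0) hlC]
    field_simp
  rw [hm] at hg
  rw [hg]
  unfold Gt
  have hs : ∀ u : OO n t,
      toC (cjO u) * ex (Nm u * (-(l : ℂ) / z) / (Dk n t * ((p * F0 : ℕ) : ℂ) ^ 2)) *
        BB (fun v => σ v * φ v) (p * F0) 0 0 1 u =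
      (sgp p F0 σ u * ftp p F0 φ u) * toC (cjO u) *
        ex (Nm u * (-1 / (A * z) / l')) := by
    intro u
    rw [h2 u]
    have e : (Nm u : ℂ) * (-(l : ℂ) / z) / (Dk n t * ((p * F0 : ℕ) : ℂ) ^ 2) =
        Nm u * (-1 / (A * z) / l') := by
      have e1 : (Dk n t : ℂ) * ((p * F0 : ℕ) : ℂ) ^ 2 = A * (l * l') := by
        rw [hAC]
        push_cast
        ring
      rw [e1]
      by_cases hA0 : (A : ℂ) = 0
      · simp [hA0]
      · field_simp
    rw [e]
    ring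
  rw [tsum_congr hs]
  by_cases hD : (Dk n t : ℂ) = 0
  · simp [hD]
  · push_cast
    field_simp
    ring

end Pool.Agent.DS.C
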