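import Pool.Agent.Lib.DS.C.Spec9

/-!
# Part C for SqN, hidden symmetries, module Lh: the limits `h0`
-/

set_option autoImplicit false

open Filter Topology
open scoped Pointwise

noncomputable section

namespace Pool.Agent.DS.C

open Pool.Agent.MuZ Pool.Agent.FW NumberField Pool.Agent.DN Pool.Agent.DN.C Pool.Agent.DS
open Pool.Agent.DI (io ofC io_inj exists_io io_ofC ofC_io VP MP UP TP ex)

theorem tLh (h3 : S_C3v) (hP : S_Par) (hC : S_Cnd) : S_Lh := by
  intro n t _ F m b hm hb
  obtain ⟨-, -, -, -, -, -, -, -, -, -, -, -, -, -, hfr, -⟩ := hC n t F m b hm hb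
  obtain ⟨l1, l2⟩ := h3 n t F m b hm hb
  have e1 : ∀ z : ℂ, ThM F m b z = T0 F m b z / fr b := fun z => rfl
  have e2 : ∀ z : ℂ, T0 F m b z = fr b * ThM F m b z := fun z => by
    rw [e1, mul_div_cancel₀ _ hfr]
  have t1 : ∀ r : ℚ, Tendsto (fun y : ℝ => T0 F m b (r + y * Complex.I)) (𝓝[>] 0)
      (𝓝 (fr b * hM F m b r)) := by
    intro r
    have h4 := (l1 r).const_mul (fr b)
    refine h4.congr fun y => ?_
    rw [e2]
  have e3 : ∀ r : ℚ, h0 F m b r = fr b * hM F m b r := fun r => (t1 r).limUnder_eq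
  refine ⟨fun r => by rw [e3]; exact t1 r, ?_, ?_, e1, fun r => ?_⟩
  · intro a b' c d hdet r hr
    rw [e3]
    have h4 := (l2 a b' c d hdet r hr).const_mul (fr b)
    refine h4.congr fun y => ?_
    rw [e2]
  · intro l hl hd
    have hper : ∀ z : ℂ, 0 < z.im → T0 F m b (z + 1 / l) = ex (NI (m * b) / l) * T0 F m b z := by
      intro z hz
      rw [e2, e2, (hP n t F m b hm hb).2 l hl hd z hz]
      ring
    refine ⟨hper, fun r => ?_⟩
    have h4 := t1 (r + 1 / l)
    have h5 := (t1 r).const_mul (ex ((NI (m * b) : ℂ) / l))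
    have h6 : (fun y : ℝ => T0 F m b (((r + 1 / l : ℚ) : ℂ) + y * Complex.I)) =ᶠ[𝓝[>] (0 : ℝ)]
        fun y : ℝ => ex ((NI (m * b) : ℂ) / l) * T0 F m b (r + y * Complex.I) := by
      filter_upwards [self_mem_nhdsWithin] with y hy
      have hy' : 0 < ((r : ℂ) + y * Complex.I).im := by
        simp only [Complex.add_im, Complex.ratCast_im, Complex.mul_im, Complex.ofReal_re,
          Complex.I_im, Complex.ofReal_im, Complex.I_re, zero_add, mul_one, mul_zero, add_zero]
        exact hy
      rw [← hper _ hy']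
      congr 1
      push_cast
      ring
    have h7 := tendsto_nhds_unique (h4.congr' h6) h5
    rw [e3, e3, h7]
  · rw [e3, mul_div_cancel_left₀ _ hfr]

end Pool.Agent.DS.C
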