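import Pool.Agent.Lib.DS.C.Spec9
import Pool.Agent.Lib.DN.CV.Bas

/-!
# Part C for SqN, module Rdg: theta series of `α b` over a system `T`, reduction to the lattice `O`

Edit of `DN/C/Rda.lean`.
-/

set_option autoImplicit false

open Filter Topology
open scoped Pointwise

noncomputable section

namespace Pool.Agent.DS.C

open Pool.Agent.MuZ Pool.Agent.FW NumberField Pool.Agent.DN Pool.Agent.DN.C Pool.Agent.DS
open Pool.Agent.DI (io ofC io_inj exists_io io_ofC ofC_io VP MP UP TP ex)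

variable {n t : ℕ}

open Classical in
/-- The indicator of `α N b + F b̄`. -/
private def Rdg_i (F : ℕ) (b : Ideal (OO n t)) (α : OO n t) (u : OO n t) : ℂ :=
  if u - α * ((NI b : ℕ) : OO n t) ∈ sp (F : OO n t) * cjI b then 1 else 0

/-! ## The ideal `F B` -/

/-- `N b` is in the conjugate ideal. -/
private lemma Rdg_nu [SqN n t] (h3 : S_O3) (b : Ideal (OO n t)) : ((NI b : ℕ) : OO n t) ∈ cjI b := by
  have h : (NI b : OO n t) ∈ b * cjI b := by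
    rw [((h3 n t).2.2.1 b).2.2]
    exact Ideal.mem_span_singleton_self _
  exact Ideal.mul_le_right h

private lemma Rdg_F [SqN n t] (h3 : S_O3) (F : ℕ) (b : Ideal (OO n t)) (u : OO n t) :
    ((F * NI b : ℕ) : OO n t) * u ∈ sp (F : OO n t) * cjI b := by
  apply Ideal.mul_mem_right
  rw [Nat.cast_mul]
  exact Ideal.mul_mem_mul (Ideal.mem_span_singleton_self _) (Rdg_nu h3 b)

private lemma Rdg_per [SqN n t] (h3 : S_O3) (F : ℕ) (b : Ideal (OO n t)) (α : OO n t) :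
    PerO (F * NI b) (Rdg_i F b α) := by
  intro v u
  have e : v + ((F * NI b : ℕ) : OO n t) * u - α * ((NI b : ℕ) : OO n t) =
      (v - α * ((NI b : ℕ) : OO n t)) + ((F * NI b : ℕ) : OO n t) * u := by ring
  unfold Rdg_i
  rw [e, Ideal.add_mem_iff_left _ (Rdg_F h3 F b u)]

/-- The key equivalence. -/
private lemma Rdg_key [SqN n t] (h3 : S_O3) {p f : ℕ} (hfp : Nat.Coprime f p)
    {b : Ideal (OO n t)} (hν : Nat.Coprime (NI b) p) {α v : OO n t} (h1 : (f : OO n t) ∣ α - 1) :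
    v - α * ((NI b : ℕ) : OO n t) ∈ sp ((p * f : ℕ) : OO n t) * cjI b ↔
      v - 1 * ((NI b : ℕ) : OO n t) ∈ sp (f : OO n t) * cjI b ∧
        (p : OO n t) ∣ v - α * ((NI b : ℕ) : OO n t) := by
  have hd : (α - 1) * ((NI b : ℕ) : OO n t) ∈ sp (f : OO n t) * cjI b :=
    Ideal.mul_mem_mul (Ideal.mem_span_singleton.2 h1) (Rdg_nu h3 b)
  constructor
  · intro h
    obtain ⟨y, hy, e⟩ := Ideal.mem_span_singleton_mul.1 h
    have h4 : v - α * ((NI b : ℕ) : OO n t) ∈ sp (f : OO n t) * cjI b := by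
      rw [Ideal.mem_span_singleton_mul]
      refine ⟨(p : OO n t) * y, Ideal.mul_mem_left _ _ hy, ?_⟩
      rw [← e]
      push_cast
      ring
    have e2 : v - 1 * ((NI b : ℕ) : OO n t) = (v - α * ((NI b : ℕ) : OO n t)) +
        (α - 1) * ((NI b : ℕ) : OO n t) := by ring
    rw [e2]
    refine ⟨Ideal.add_mem _ h4 hd, ⟨(f : OO n t) * y, ?_⟩⟩
    rw [← e]
    push_cast
    ring
  · rintro ⟨h, ⟨y, hy⟩⟩
    have h4 : v - α * ((NI b : ℕ) : OO n t) ∈ sp (f : OO n t) * cjI b := by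
      have e2 : v - α * ((NI b : ℕ) : OO n t) = (v - 1 * ((NI b : ℕ) : OO n t)) -
        (α - 1) * ((NI b : ℕ) : OO n t) := by ring
      rw [e2]
      exact Ideal.sub_mem _ h hd
    have hc : IsCoprime (((f * NI b : ℕ) : ℤ)) (p : ℤ) :=
      Nat.isCoprime_iff_coprime.2 (hfp.mul_left hν)
    obtain ⟨x, x', hx⟩ := hc
    have h5 : y ∈ sp (f : OO n t) * cjI b := by
      have hx2 : (x : OO n t) * ((f * NI b : ℕ) : OO n t) + (x' : OO n t) * (p : OO n t) = 1 := by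
        have := congrArg (fun k : ℤ => (k : OO n t)) hx
        push_cast at this ⊢
        exact this
      have e3 : y = (x : OO n t) * (((f * NI b : ℕ) : OO n t) * y) + (x' : OO n t) *
          (v - α * ((NI b : ℕ) : OO n t)) := by
        rw [hy]
        linear_combination (-y) * hx2
      rw [e3]
      exact Ideal.add_mem _ (Ideal.mul_mem_left _ _ (Rdg_F h3 f b y)) (Ideal.mul_mem_left _ _ h4)
    obtain ⟨w, hw, e⟩ := Ideal.mem_span_singleton_mul.1 h5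
    rw [hy, Ideal.mem_span_singleton_mul]
    refine ⟨w, hw, ?_⟩
    rw [← e]
    push_cast
    ring

/-- `p ∣ v - α ν` if and only if `p ∣ ν v - α`. -/
private lemma Rdg_sq {p : ℕ} {ν : ℕ} (hs : (p : ℤ) ∣ (ν : ℤ) ^ 2 - 1) (α v : OO n t) :
    (p : OO n t) ∣ v - α * ((ν : ℕ) : OO n t) ↔ (p : OO n t) ∣ ((ν : ℕ) : OO n t) * v - α := by
  obtain ⟨c, hc⟩ := hs
  have hc2 : ((ν : ℕ) : OO n t) ^ 2 - 1 = (p : OO n t) * (c : OO n t) := by
    have := congrArg (fun k : ℤ => (k : OO n t)) hc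
    push_cast at this ⊢
    exact this
  constructor
  · rintro ⟨y, hy⟩
    refine ⟨((ν : ℕ) : OO n t) * y + α * (c : OO n t), ?_⟩
    linear_combination ((ν : ℕ) : OO n t) * hy + α * hc2
  · rintro ⟨y, hy⟩
    refine ⟨((ν : ℕ) : OO n t) * y - v * (c : OO n t), ?_⟩
    linear_combination ((ν : ℕ) : OO n t) * hy - v * hc2

/-- The sum over `T`. -/
private lemma Rdg_sum [SqN n t] (h3 : S_O3) {p f : ℕ} (hfp : Nat.Coprime f p)
    {b : Ideal (OO n t)} (hν : Nat.Coprime (NI b) p) (hs : (p : ℤ) ∣ ((NI b : ℕ) : ℤ) ^ 2 - 1)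
    {T : Finset (OO n t)} {g : OO n t → ℂ} (hT : Ts p f T g) (v : OO n t) :
    ∑ α ∈ T, g α * Rdg_i (p * f) b α v = s0 f b 1 v * g ((NI b : OO n t) * v) := by
  classical
  have e0 : s0 f b 1 v = Rdg_i f b 1 v := by
    have e1 : ((1 * NI b : ℤ) : OO n t) = 1 * ((NI b : ℕ) : OO n t) := by
      push_cast
      ring
    unfold s0 Rdg_i
    rw [e1]
  rw [e0, ← hT.rep ((NI b : OO n t) * v), Finset.mul_sum]
  refine Finset.sum_congr rfl fun α hα => ?_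
  have hk := Rdg_key h3 hfp hν (v := v) (hT.sys α hα).1
  rw [Rdg_sq hs α v] at hk
  unfold Rdg_i
  by_cases h1 : v - 1 * ((NI b : ℕ) : OO n t) ∈ sp (f : OO n t) * cjI b
  · by_cases h2 : (p : OO n t) ∣ ((NI b : ℕ) : OO n t) * v - α
    · rw [if_pos (hk.2 ⟨h1, h2⟩), if_pos h1, if_pos h2]
      ring
    · rw [if_neg fun h => h2 (hk.1 h).2, if_neg h2]
      ring
  · rw [if_neg fun h => h1 (hk.1 h).1, if_neg h1]
    ring

/-! ## The series -/

/-- The coset `α/F + Lam b` is `1/(F N b)` times the set of the `toC u`, `u - α N b ∈ F B`. -/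
private lemma Rdg_cs [SqN n t] (hL : S_Lt) {F : ℕ} {b : Ideal (OO n t)} (hF : 0 < F) (hb : b ≠ ⊥)
    (α : OO n t) :
    cs (n := n) (t := t) (toC α / F) b = (fun v : ℂ => (((F * NI b : ℕ) : ℂ))⁻¹ * v) ''
      (toC '' {u : OO n t | u - α * ((NI b : ℕ) : OO n t) ∈ sp (F : OO n t) * cjI b}) := by
  have hn : 0 < NI b := (hL n t b hb).1
  have hn' : (NI b : ℂ) ≠ 0 := Nat.cast_ne_zero.2 hn.ne'
  have hf' : (F : ℂ) ≠ 0 := Nat.cast_ne_zero.2 hF.ne'
  have p1 := (hL n t b hb).2.1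
  ext v
  constructor
  · intro hv
    obtain ⟨u, hu, hv'⟩ := (p1 _).1 hv
    refine ⟨toC (α * ((NI b : ℕ) : OO n t) + (F : OO n t) * u),
      ⟨α * ((NI b : ℕ) : OO n t) + (F : OO n t) * u, ?_, rfl⟩, ?_⟩
    · change α * ((NI b : ℕ) : OO n t) + (F : OO n t) * u - α * ((NI b : ℕ) : OO n t) ∈
        sp (F : OO n t) * cjI b
      rw [add_sub_cancel_left]
      exact Ideal.mul_mem_mul (Ideal.mem_span_singleton_self _) hu
    · have e : v = toC u / NI b + toC α / F := by rw [← hv']; ring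
      change (((F * NI b : ℕ) : ℂ))⁻¹ * toC (α * ((NI b : ℕ) : OO n t) + (F : OO n t) * u) = v
      rw [toC_add, toC_mul, toC_mul, toC_nat, toC_nat, e]
      push_cast
      field_simp
      ring
  · rintro ⟨_, ⟨u, hu, rfl⟩, rfl⟩
    obtain ⟨w, hw, hwu⟩ := Ideal.mem_span_singleton_mul.1 hu
    change (((F * NI b : ℕ) : ℂ))⁻¹ * toC u - toC α / F ∈ Lam b
    rw [p1]
    refine ⟨w, hw, ?_⟩
    have e : u = α * ((NI b : ℕ) : OO n t) + (F : OO n t) * w := by rw [hwu]; ring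
    rw [e, toC_add, toC_mul, toC_mul, toC_nat, toC_nat]
    push_cast
    field_simp
    ring

/-- The sum over the image of a set. -/
private lemma Rdg_TT [SqN n t] (A : Set (OO n t)) (ρ : OO n t → ℂ) (h1 : ∀ u ∈ A, ρ u = 1)
    (h0 : ∀ u ∉ A, ρ u = 0) (n₁ : ℕ) (z : ℂ) :
    TT (toC '' A) ((n₁ : ℝ)⁻¹) z = ∑' v : OO n t, ρ v / toC v * ex (Nm v * (z / n₁)) := by
  unfold TT Pool.Agent.DK.C.TT
  rw [tsum_image (f := fun v : ℂ => v⁻¹ * ex (((n₁ : ℝ)⁻¹ : ℝ) * ‖v‖ ^ 2 * z)) (toC_inj.injOn)]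
  rw [tsum_subtype A (fun v : OO n t => (toC v)⁻¹ * ex (((n₁ : ℝ)⁻¹ : ℝ) * ‖toC v‖ ^ 2 * z))]
  refine tsum_congr fun v => ?_
  by_cases hv : v ∈ A
  · rw [Set.indicator_of_mem hv, h1 v hv]
    have e : ((Nm v : ℤ) : ℂ) = (‖toC v‖ : ℂ) ^ 2 := by
      have := Nm_norm v
      exact_mod_cast congrArg (fun t₁ : ℝ => (t₁ : ℂ)) this
    rw [e]
    push_cast
    ring_nf
  · rw [Set.indicator_of_notMem hv, h0 v hv]
    ring

private theorem Rdg_set [SqN n t] {α : OO n t} (hα : α ≠ 0) (b : Ideal (OO n t)) (x : ℂ) :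
    cs x (sp α * b) = (fun v => (toC α)⁻¹ * v) '' cs (toC α * x) b := by
  have h0 : toC α ≠ 0 := toC_ne hα
  ext v
  constructor
  · intro hv
    refine ⟨toC α * v, ?_, inv_mul_cancel_left₀ h0 v⟩
    have h1 : toC α * (v - x) ∈ Lam b := lam_sp.1 hv
    change toC α * v - toC α * x ∈ Lam b
    rwa [← mul_sub]
  · rintro ⟨u, hu, rfl⟩
    change (toC α)⁻¹ * u - x ∈ Lam (sp α * b)
    rw [lam_sp, mul_sub, mul_inv_cancel_left₀ h0]
    exact hu

private theorem Rdg_main [SqN n t] (hR : S_Red) (hT : S_Tt) (h2 : S_O2) {F : ℕ} (hf : 0 < F)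
    {b : Ideal (OO n t)} (hb : b ≠ ⊥) {α : OO n t} (hα : α ≠ 0) (z : ℂ) :
    Tc F (sp α * b) 1 z = toC α * TT (cs (toC α / F) b) ((F : ℝ) ^ 2 * NI b) z := by
  have hT1 : ∀ (A : Set ℂ) (c : ℂ) (w : ℝ) (z : ℂ), c ≠ 0 →
      TT ((fun v => c * v) '' A) w z = c⁻¹ * TT A (w * ‖c‖ ^ 2) z := hT.1
  have h0 : toC α ≠ 0 := toC_ne hα
  have hne : sp α * b ≠ ⊥ := by
    intro h
    rcases Ideal.mul_eq_bot.1 h with h | h
    · exact hα (Ideal.span_singleton_eq_bot.1 h)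
    · exact hb h
  rw [(hR n t F (sp α * b) hf hne 1).2.2.1 z, Rdg_set hα,
    hT1 _ _ _ _ (inv_ne_zero h0), inv_inv]
  have e1 : toC α * (((1 : ℤ) : ℂ) / (F : ℂ)) = toC α / F := by
    rw [Int.cast_one, mul_one_div]
  have hn : ‖toC α‖ ≠ 0 := norm_ne_zero_iff.2 h0
  have e3 : ((NI (sp α) : ℕ) : ℝ) = ‖toC α‖ ^ 2 := by
    rw [← Nm_norm, ← (h2 n t).2.2.2.1 α]
    rfl
  have e2 : (F : ℝ) ^ 2 * ((NI (sp α * b) : ℕ) : ℝ) * ‖(toC α)⁻¹‖ ^ 2 = (F : ℝ) ^ 2 * NI b := by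
    rw [(h2 n t).2.2.2.2.1, Nat.cast_mul, e3, norm_inv]
    field_simp
  rw [e1, e2]

theorem tRdg (hL : S_Lt) (hT : S_Tt) (hD : S_Der) (hR : S_Red) (h2 : S_O2) (h3 : S_O3)
    (h6 : S_O6) : S_Rdg := by
  intro n t _ p l f m b T g hP hl hTs z hz
  have hT1 : ∀ (A : Set ℂ) (c : ℂ) (w : ℝ) (z : ℂ), c ≠ 0 →
      TT ((fun v => c * v) '' A) w z = c⁻¹ * TT A (w * ‖c‖ ^ 2) z := hT.1
  have hp : 0 < p := lt_trans one_pos hP.p0
  have hb : b ≠ ⊥ := hP.b0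
  have hF0 : 0 < p * f := Nat.mul_pos hp hP.f0
  have hn : 0 < NI b := (hL n t b hb).1
  have hν : Nat.Coprime (NI b) p := ((h6 n t).2.2.1 p b hp).1 hP.bp
  have hs : (p : ℤ) ∣ ((NI b : ℕ) : ℤ) ^ 2 - 1 := hP.sq _ (Nat.isCoprime_iff_coprime.2 hν)
  have hzl : 0 < (z / (l : ℂ)).im := by
    rw [Complex.div_natCast_im]
    exact div_pos hz (Nat.cast_pos.2 hl)
  have hw : 0 < (z / (l : ℂ) / (NI b : ℂ)).im := by
    rw [Complex.div_natCast_im]
    exact div_pos hzl (Nat.cast_pos.2 hn)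
  have hFn : 0 < p * f * NI b := Nat.mul_pos hF0 hn
  have hsum : ∀ α : OO n t, Summable fun v : OO n t =>
      Rdg_i (p * f) b α v / toC v * ex (Nm v * (z / (l : ℂ) / (NI b : ℂ))) := fun α =>
    (hD n t (p * f * NI b) _ hFn (Rdg_per h3 (p * f) b α)).2.1 _ hw
  have hterm : ∀ α ∈ T, g α * ((toC α)⁻¹ * Tc (p * f) (sp α * b) 1 (z / l)) =
      ((p * f * NI b : ℕ) : ℂ) * ∑' v : OO n t,
        g α * (Rdg_i (p * f) b α v / toC v * ex (Nm v * (z / (l : ℂ) / (NI b : ℂ)))) := by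
    intro α hα
    have hα0 : α ≠ 0 := CV_ne_of_cop hP.p0 (hTs.sys α hα).2
    have hc : (((p * f * NI b : ℕ) : ℂ))⁻¹ ≠ 0 := inv_ne_zero (Nat.cast_ne_zero.2 hFn.ne')
    have e : ((p * f : ℕ) : ℝ) ^ 2 * (NI b : ℝ) * ‖(((p * f * NI b : ℕ) : ℂ))⁻¹‖ ^ 2 =
        ((NI b : ℕ) : ℝ)⁻¹ := by
      have hfR : ((p * f : ℕ) : ℝ) ≠ 0 := Nat.cast_ne_zero.2 hF0.ne'
      have hnR : (NI b : ℝ) ≠ 0 := Nat.cast_ne_zero.2 hn.ne'
      rw [norm_inv, Complex.norm_natCast, Nat.cast_mul (p * f) (NI b)]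
      field_simp
    rw [Rdg_main hR hT h2 hF0 hb hα0, inv_mul_cancel_left₀ (toC_ne hα0), Rdg_cs hL hF0 hb α,
      hT1 _ _ _ _ hc, inv_inv, e,
      Rdg_TT {u : OO n t | u - α * ((NI b : ℕ) : OO n t) ∈ sp ((p * f : ℕ) : OO n t) * cjI b}
        (Rdg_i (p * f) b α) (fun u hu => if_pos hu) (fun u hu => if_neg hu), tsum_mul_left]
    ring
  have hfin : ∑' v : OO n t, ∑ α ∈ T,
      g α * (Rdg_i (p * f) b α v / toC v * ex (Nm v * (z / (l : ℂ) / (NI b : ℂ)))) =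
      ∑' v : OO n t, s0 f b 1 v * g ((NI b : OO n t) * v) / toC v *
        ex (Nm v * (z / (l : ℂ) / (NI b : ℂ))) := by
    refine tsum_congr fun v => ?_
    rw [← Rdg_sum h3 hP.cop hν hs hTs v, Finset.sum_div, Finset.sum_mul]
    refine Finset.sum_congr rfl fun α _ => ?_
    ring
  rw [Finset.sum_congr rfl hterm, ← Finset.mul_sum,
    ← Summable.tsum_finsetSum fun α _ => (hsum α).mul_left _, hfin]
  unfold Lg Th
  push_cast
  ring

end Pool.Agent.DS.C
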