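import Pool.Agent.Lib.DS.C.Spec9

/-!
# Part C for SqN, hidden symmetries, module Ug: the hidden symmetry on the upper half plane
-/

set_option autoImplicit false

open Filter Topology
open scoped Pointwise

noncomputable section

namespace Pool.Agent.DS.C

open Pool.Agent.MuZ Pool.Agent.FW NumberField Pool.Agent.DN Pool.Agent.DN.C Pool.Agent.DS
open Pool.Agent.DI (io ofC io_inj exists_io io_ofC ofC_io VP MP UP TP ex)

variable {n t : ℕ}

private theorem Ug_divn {k : ℕ} (hk : 0 < k) {z : ℂ} (hz : 0 < z.im) : 0 < (z / (k : ℂ)).im := by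
  rw [Complex.div_natCast_im]
  exact div_pos hz (by exact_mod_cast hk)

private theorem Ug_muln {k : ℕ} (hk : 0 < k) {z : ℂ} (hz : 0 < z.im) : 0 < ((k : ℂ) * z).im := by
  rw [Complex.mul_im, Complex.natCast_re, Complex.natCast_im, zero_mul, add_zero]
  exact mul_pos (by exact_mod_cast hk) hz

/-! ## The ideal `f B` -/

private lemma Ug_nu [SqN n t] (h3 : S_O3) (b : Ideal (OO n t)) : ((NI b : ℕ) : OO n t) ∈ cjI b := by
  have h : (NI b : OO n t) ∈ b * cjI b := by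
    rw [((h3 n t).2.2.1 b).2.2]
    exact Ideal.mem_span_singleton_self _
  exact Ideal.mul_le_right h

private lemma Ug_F [SqN n t] (h3 : S_O3) (f : ℕ) (b : Ideal (OO n t)) (u : OO n t) :
    ((f * NI b : ℕ) : OO n t) * u ∈ sp (f : OO n t) * cjI b := by
  apply Ideal.mul_mem_right
  rw [Nat.cast_mul]
  exact Ideal.mul_mem_mul (Ideal.mem_span_singleton_self _) (Ug_nu h3 b)

private lemma Ug_per [SqN n t] (h3 : S_O3) (f : ℕ) (b : Ideal (OO n t)) (s : ℤ) :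
    PerO (f * NI b) (s0 f b s) := by
  intro v u
  have e : v + ((f * NI b : ℕ) : OO n t) * u - ((s * NI b : ℤ) : OO n t) =
      (v - ((s * NI b : ℤ) : OO n t)) + ((f * NI b : ℕ) : OO n t) * u := by ring
  unfold s0
  rw [e, Ideal.add_mem_iff_left _ (Ug_F h3 f b u)]

private lemma Ug_div [SqN n t] (h3 : S_O3) {f p : ℕ} {b : Ideal (OO n t)}
    (hp : Nat.Coprime (f * NI b) p) {x : OO n t}
    (h : (p : OO n t) * x ∈ sp (f : OO n t) * cjI b) : x ∈ sp (f : OO n t) * cjI b := by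
  obtain ⟨a, c, hac⟩ := Nat.isCoprime_iff_coprime.2 hp
  have e : x = (a : OO n t) * (((f * NI b : ℕ) : OO n t) * x) + (c : OO n t) * ((p : OO n t) * x) := by
    have h1 := congrArg (fun j : ℤ => (j : OO n t)) hac
    push_cast at h1 ⊢
    linear_combination (-x) * h1
  rw [e]
  exact Ideal.add_mem _ (Ideal.mul_mem_left _ _ (Ug_F h3 f b x)) (Ideal.mul_mem_left _ _ h)

private lemma Ug_s0 [SqN n t] (h3 : S_O3) {f p q : ℕ} {b : Ideal (OO n t)} {s s' : ℤ}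
    (hp : Nat.Coprime (f * NI b) p) (hq : Nat.Coprime (f * NI b) q) (hss : (p : ℤ) * s' = q * s)
    (a : OO n t) : s0 f b s ((p : OO n t) * a) = s0 f b s' ((q : OO n t) * a) := by
  have h1 : ((p : ℕ) : OO n t) * (s' : OO n t) = (q : OO n t) * (s : OO n t) := by
    have h2 := congrArg (fun j : ℤ => (j : OO n t)) hss
    push_cast at h2
    exact h2
  have e : (p : OO n t) * ((q : OO n t) * a - ((s' * NI b : ℤ) : OO n t)) =
      (q : OO n t) * ((p : OO n t) * a - ((s * NI b : ℤ) : OO n t)) := by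
    push_cast
    linear_combination (-((NI b : ℕ) : OO n t)) * h1
  have key : (p : OO n t) * a - ((s * NI b : ℤ) : OO n t) ∈ sp (f : OO n t) * cjI b ↔
      (q : OO n t) * a - ((s' * NI b : ℤ) : OO n t) ∈ sp (f : OO n t) * cjI b := by
    constructor
    · intro h
      apply Ug_div h3 hp
      rw [e]
      exact Ideal.mul_mem_left _ _ h
    · intro h
      apply Ug_div h3 hq
      rw [← e]
      exact Ideal.mul_mem_left _ _ h
  unfold s0
  by_cases h : (p : OO n t) * a - ((s * NI b : ℤ) : OO n t) ∈ sp (f : OO n t) * cjI b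
  · rw [if_pos h, if_pos (key.1 h)]
  · rw [if_neg h, if_neg fun h' => h (key.2 h')]

/-- The local Fourier transform. -/
private lemma Ug_ftp {p f N : ℕ} {g : OO n t → ℂ} (hg : PerO p g) (hN : (p : ℤ) ∣ (N : ℤ) ^ 2 - 1)
    (u : OO n t) : ftp p (f * N) (fun v => g ((N : OO n t) * v)) u = ftp p f g u := by
  obtain ⟨c, hc⟩ := hN
  unfold ftp
  congr 1
  funext β
  congr 1
  have h1 := congrArg (fun j : ℤ => (j : OO n t)) hc
  have e : (N : OO n t) * (((f * N : ℕ) : OO n t) * β) =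
      (f : OO n t) * β + (p : OO n t) * ((c : OO n t) * ((f : OO n t) * β)) := by
    push_cast at h1 ⊢
    linear_combination ((f : OO n t) * β) * h1
  change g ((N : OO n t) * (((f * N : ℕ) : OO n t) * β)) = g ((f : OO n t) * β)
  rw [e, hg]

private lemma Ug_perN {p : ℕ} {g : OO n t → ℂ} (hg : PerO p g) (N : ℕ) :
    PerO p fun v => g ((N : OO n t) * v) := by
  intro v u
  change g ((N : OO n t) * (v + (p : OO n t) * u)) = g ((N : OO n t) * v)
  have e : (N : OO n t) * (v + (p : OO n t) * u) =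
      (N : OO n t) * v + (p : OO n t) * ((N : OO n t) * u) := by ring
  rw [e, hg]

/-- One term. -/
private theorem Ug_one [SqN n t] (hH : S_Htg) (h3 : S_O3) (h6 : S_O6)
    {p l q k l' f M c D1 : ℕ} {s s' : ℤ} {m b : Ideal (OO n t)} {g g' : OO n t → ℂ}
    (hs : Hs p l q k l' f M c D1 s s' m b g g') {b₁ : Ideal (OO n t)} (hn : 0 < NI b₁)
    (hp : PrI b₁ p) (hq : PrI b₁ q) : ∃ C : ℂ, ∀ z : ℂ, 0 < z.im →
      Th (fun v => s0 f b₁ s v * g ((NI b₁ : OO n t) * v))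
        (z / ((D1 * (f * NI b₁) ^ 2 : ℕ) * ((c : ℤ) : ℂ) * z + 1) / l) =
      Th (fun v => s0 f b₁ s' v * g' ((NI b₁ : OO n t) * v)) (z / k) + C := by
  have hp0 : 0 < p := by have := hs.pf.p0; omega
  have hq0 : 0 < q := by have := hs.qf.p0; omega
  have hnp : (NI b₁).Coprime p := ((h6 n t).2.2.1 p b₁ hp0).1 hp
  have hnq : (NI b₁).Coprime q := ((h6 n t).2.2.1 q b₁ hq0).1 hq
  have hFp : Nat.Coprime (f * NI b₁) p := Nat.Coprime.mul_left hs.pf.cop hnp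
  have hFq : Nat.Coprime (f * NI b₁) q := Nat.Coprime.mul_left hs.qf.cop hnq
  have hsp : (p : ℤ) ∣ ((NI b₁ : ℕ) : ℤ) ^ 2 - 1 := hs.pf.sq _ (Nat.isCoprime_iff_coprime.2 hnp)
  have hsq : (q : ℤ) ∣ ((NI b₁ : ℕ) : ℤ) ^ 2 - 1 := hs.qf.sq _ (Nat.isCoprime_iff_coprime.2 hnq)
  refine hH n t p l q k l' (f * NI b₁) (D1 * (f * NI b₁) ^ 2) c (s0 f b₁ s) (s0 f b₁ s')
    (fun v => g ((NI b₁ : OO n t) * v)) (fun v => g' ((NI b₁ : OO n t) * v)) hp0 hs.l0 hq0 hs.k0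
    hs.l1 (Nat.mul_pos hs.pf.f0 hn) hFp hFq ?_ ?_ (Ug_per h3 f b₁ s) (Ug_per h3 f b₁ s')
    (Ug_perN hs.per _) (Ug_perN hs.per' _) ?_ ?_
  · calc D1 * (f * NI b₁) ^ 2 * (l * l') = D1 * (l * l') * (f * NI b₁) ^ 2 := by ring
      _ = Dk n t * (p * (f * NI b₁)) ^ 2 := by rw [← hs.dd]; ring
  · calc D1 * (f * NI b₁) ^ 2 * (k * l') = D1 * (k * l') * (f * NI b₁) ^ 2 := by ring
      _ = Dk n t * (q * (f * NI b₁)) ^ 2 := by rw [← hs.de]; ring
  · intro u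
    unfold sgp
    congr 1
    funext a
    rw [Ug_s0 h3 hFp hFq hs.ss a]
  · intro u
    rw [Ug_ftp hs.per hsp, Ug_ftp hs.per' hsq]
    have h := hs.loc u
    rw [Int.cast_natCast]
    exact h

theorem tUg (hH : S_Htg) (h2 : S_O2) (h3 : S_O3) (h6 : S_O6) : S_Ug := by
  intro n t _ p l q k l' f M c D1 s s' m b g g' hs
  have hm0 : 0 < NI m := Nat.pos_of_ne_zero fun h => hs.pf.m0 (((h2 n t).2.2.2.2.2.1 m).1 h)
  have hb0 : 0 < NI b := Nat.pos_of_ne_zero fun h => hs.pf.b0 (((h2 n t).2.2.2.2.2.1 b).1 h)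
  have hN : NI (m * b) = NI m * NI b := (h2 n t).2.2.2.2.1 m b
  have hN0 : 0 < NI (m * b) := by
    rw [hN]
    exact Nat.mul_pos hm0 hb0
  obtain ⟨C1, hC1⟩ := Ug_one hH h3 h6 hs (b₁ := m * b) hN0
    (((h6 n t).1 p m b).2 ⟨hs.pf.mp, hs.pf.bp⟩) (((h6 n t).1 q m b).2 ⟨hs.qf.mp, hs.qf.bp⟩)
  obtain ⟨C2, hC2⟩ := Ug_one hH h3 h6 hs (b₁ := b) hb0 hs.pf.bp hs.qf.bp
  have hNc : ((NI (m * b) : ℕ) : ℂ) ≠ 0 := by exact_mod_cast hN0.ne'
  have hbc : ((NI b : ℕ) : ℂ) ≠ 0 := by exact_mod_cast hb0.ne'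
  have hNN : ((NI (m * b) : ℕ) : ℂ) = (NI m : ℂ) * NI b := by
    rw [hN]
    push_cast
    ring
  have hMc : (M : ℂ) = (D1 : ℂ) * (f : ℂ) ^ 2 * ((NI (m * b) : ℕ) : ℂ) * c := by
    rw [← hs.lev]
    push_cast
    ring
  refine ⟨2 * NI (m * b) * C1 - NI m * (2 * NI b * C2), fun z hz => ?_⟩
  have h4 := hC1 (z / (NI (m * b) : ℂ)) (Ug_divn hN0 hz)
  have h5 := hC2 ((NI m : ℂ) * z / (NI b : ℂ)) (Ug_divn hb0 (Ug_muln hm0 hz))
  have e1 : ((D1 * (f * NI (m * b)) ^ 2 : ℕ) : ℂ) * ((c : ℤ) : ℂ) * (z / (NI (m * b) : ℂ)) =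
      M * z := by
    rw [hMc, Int.cast_natCast]
    push_cast
    field_simp
  have e2 : ((D1 * (f * NI b) ^ 2 : ℕ) : ℂ) * ((c : ℤ) : ℂ) * ((NI m : ℂ) * z / (NI b : ℂ)) =
      M * z := by
    rw [hMc, Int.cast_natCast]
    push_cast
    rw [hNN]
    field_simp
  rw [e1] at h4
  rw [e2] at h5
  have e3 : z / (M * z + 1) / l / (NI (m * b) : ℂ) = z / (NI (m * b) : ℂ) / (M * z + 1) / l := by
    ring
  have e4 : (NI m : ℂ) * (z / (M * z + 1)) / l / (NI b : ℂ) =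
      (NI m : ℂ) * z / (NI b : ℂ) / (M * z + 1) / l := by ring
  have e5 : z / k / (NI (m * b) : ℂ) = z / (NI (m * b) : ℂ) / k := by ring
  have e6 : (NI m : ℂ) * z / k / (NI b : ℂ) = (NI m : ℂ) * z / (NI b : ℂ) / k := by ring
  unfold Hg Lg
  rw [e3, e4, h4, h5, e5, e6]
  ring

end Pool.Agent.DS.C
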