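import Pool.Agent.Lib.DS.C.Spec9

/-!
# Part C for SqN, module Uvl: the hidden symmetry of the values
-/

set_option autoImplicit false

open Filter Topology
open scoped Pointwise

noncomputable section

namespace Pool.Agent.DS.C

open Pool.Agent.MuZ Pool.Agent.FW NumberField Pool.Agent.DN Pool.Agent.DN.C Pool.Agent.DS
open Pool.Agent.DI (io ofC io_inj exists_io io_ofC ofC_io VP MP UP TP ex)

private theorem Uvl_im (M : ℕ) {z : ℂ} (hz : 0 < z.im) : 0 < (z / (M * z + 1)).im := by
  have h1 : ((M : ℂ) * z + 1).re = M * z.re + 1 := by simp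
  have h2 : ((M : ℂ) * z + 1).im = M * z.im := by simp
  have h0 : (M : ℂ) * z + 1 ≠ 0 := by
    intro h
    have h3 : (M : ℝ) * z.im = 0 := by rw [← h2, h, Complex.zero_im]
    rcases mul_eq_zero.1 h3 with h4 | h4
    · have h5 := congrArg Complex.re h
      rw [h1, h4, zero_mul, zero_add, Complex.zero_re] at h5
      exact one_ne_zero h5
    · exact hz.ne' h4
  rw [Complex.div_im, h1, h2]
  have h6 : z.im * (M * z.re + 1) / Complex.normSq (M * z + 1) -
      z.re * (M * z.im) / Complex.normSq (M * z + 1) = z.im / Complex.normSq (M * z + 1) := by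
    ring
  rw [h6]
  exact div_pos hz (Complex.normSq_pos.2 h0)

theorem tUvl (hU : S_Ug) (hE : S_Etg) (hL : S_Elm) : S_Uvl := by
  intro n t _ p l l' f M c D1 m b T g g' hs hT hT' hm hb
  obtain ⟨C, hC⟩ := hU n t p l p l l' f M c D1 1 1 m b g g' hs
  have hE1 := hE n t p l f m b T g hs.pf hs.l0 hT
  have hE2 := hE n t p l f m b T g' hs.pf hs.l0 hT'
  have key : ∀ r : ℚ, (M : ℚ) * r + 1 ≠ 0 →
      ∑ α ∈ T, g α * ((toC α)⁻¹ * h0 (p * f) m (sp α * b) (r / (M * r + 1) / l)) =
        ∑ α ∈ T, g' α * ((toC α)⁻¹ * h0 (p * f) m (sp α * b) (r / l)) + (p * f : ℕ) * C := by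
    intro r hr
    have a1 := ((hL n t p l f M m b T g hs.l0 hm hb hT.sys).2 r).2 hr
    have a2 := ((hL n t p l f M m b T g' hs.l0 hm hb hT'.sys).2 r).1
    have a3 := a2.add_const (((p * f : ℕ) : ℂ) * C)
    refine tendsto_nhds_unique (a1.congr' ?_) a3
    filter_upwards [self_mem_nhdsWithin] with y hy
    have hz : 0 < ((r : ℂ) + y * Complex.I).im := by
      have e : ((r : ℂ) + y * Complex.I).im = y := by simp
      rw [e]
      exact hy
    rw [hE1 _ (Uvl_im M hz), hC _ hz, hE2 _ hz, mul_add]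
  intro r hr
  have k1 := key r hr
  have k2 := key 0 (by rw [mul_zero, zero_add]; exact one_ne_zero)
  rw [zero_div, zero_div] at k2
  rw [k1, k2]
  ring

end Pool.Agent.DS.C
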