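import Pool.Agent.Lib.DS.C.All
import Pool.Agent.Lib.DS.C.Fog
import Pool.Agent.Lib.DS.C.Ing
import Pool.Agent.Lib.DS.C.Htg
import Pool.Agent.Lib.DS.C.Ug
import Pool.Agent.Lib.DS.C.Rdg
import Pool.Agent.Lib.DS.C.Etg
import Pool.Agent.Lib.DS.C.Lh
import Pool.Agent.Lib.DS.C.Elm
import Pool.Agent.Lib.DS.C.Uvl

/-!
# The general machine for the hidden symmetries: assembly (author helper33)

All statements of `DS/C/Spec9.lean`, without hypotheses.
-/

set_option autoImplicit false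

noncomputable section

namespace Pool.Agent.DS.C

open Pool.Agent.DN Pool.Agent.DS

theorem aFog : S_Fog := tFog DN.C.aRes
theorem aIng : S_Ing := tIng DN.C.aGen aFog
theorem aHtg : S_Htg := tHtg aIng DN.C.aDer
theorem aUg : S_Ug := tUg aHtg aO2 aO3 aO6
theorem aRdg : S_Rdg := tRdg DN.C.aLt DN.C.aTt DN.C.aDer DN.C.aRed aO2 aO3 aO6
theorem aEtg : S_Etg := tEtg aRdg aO2 aO6
theorem aLh : S_Lh := tLh aC3v aPar aCnd
theorem aElm : S_Elm := tElm aLh aO6
theorem aUvl : S_Uvl := tUvl aUg aEtg aElm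

end Pool.Agent.DS.C
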