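import Pool.Agent.Lib.DS.C.Spec

/-!
# Part C for SqN, module Par: the exponents modulo `l`; the periods `1/l`
-/

set_option autoImplicit false

open Filter Topology
open scoped Pointwise

noncomputable section

namespace Pool.Agent.DS.C

open Pool.Agent.MuZ Pool.Agent.FW NumberField Pool.Agent.DN Pool.Agent.DN.C Pool.Agent.DS
open Pool.Agent.DI (io ofC io_inj exists_io io_ofC ofC_io VP MP UP TP ex)

private lemma Par_ex_add (x y : ℂ) : ex (x + y) = ex x * ex y := by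
  unfold ex
  rw [mul_add, Complex.exp_add]

private lemma Par_ex_int (i : ℤ) : ex (i : ℂ) = 1 := by
  unfold ex
  rw [Complex.exp_eq_one_iff]
  exact ⟨i, by ring⟩

private lemma Par_ex_mod {l : ℕ} (hl : 0 < l) {j k : ℕ} (h : (l : ℤ) ∣ (j : ℤ) - k) :
    ex ((j : ℂ) / l) = ex ((k : ℂ) / l) := by
  obtain ⟨i, hi⟩ := h
  have hl0 : (l : ℂ) ≠ 0 := by exact_mod_cast hl.ne'
  have e1 : (j : ℂ) = k + l * i := by
    have h1 : (j : ℤ) = k + l * i := by linarith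
    exact_mod_cast congrArg (fun x : ℤ => (x : ℂ)) h1
  have e : (j : ℂ) / l = (k : ℂ) / l + i := by
    rw [e1]
    field_simp
  rw [e, Par_ex_add, Par_ex_int, mul_one]

private lemma Par_norm (l : ℂ) (r : ℝ) :
    ‖1 + r * l‖ ^ 2 = ‖(1 : ℂ)‖ ^ 2 + r * (2 * l.re) + r ^ 2 * ‖l‖ ^ 2 := by
  simp only [Complex.sq_norm, Complex.normSq_apply, Complex.add_re, Complex.add_im, Complex.mul_re,
    Complex.mul_im, Complex.ofReal_re, Complex.ofReal_im, Complex.one_re, Complex.one_im]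
  ring

variable {n t : ℕ}

/-- The exponents. -/
private theorem Par_int [SqN n t] (hL : S_Lt) {F : ℕ} (hF : 0 < F) (hF2 : 2 ∣ F)
    {b : Ideal (OO n t)} (hb : b ≠ ⊥) {v : ℂ} (hv : v - 1 / F ∈ Lam b) :
    ∃ j : ℕ, (∀ l : ℕ, Dvl t F l → (l : ℤ) ∣ (j : ℤ) - NI b) ∧
      (F : ℝ) ^ 2 * NI b * ‖v‖ ^ 2 = j := by
  obtain ⟨l1, l2, -, hint, -, -, -⟩ := hL n t b hb
  have hF0 : (F : ℂ) ≠ 0 := by exact_mod_cast hF.ne'
  have hone : (1 : ℂ) ∈ Lam b := fun w _ => ⟨w, mul_one _⟩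
  obtain ⟨j2, h2⟩ := hint _ hv
  obtain ⟨u, -, hu⟩ := (l2 _).1 hv
  have hN' : (NI b : ℂ) ≠ 0 := by exact_mod_cast l1.ne'
  have e1 : (F : ℂ) * v = 1 + ((F : ℝ) : ℂ) * (v - 1 / F) := by
    push_cast
    field_simp
    ring
  have hFv : (F : ℂ) * v ∈ Lam b := by
    rw [e1]
    exact lam_add hone (by simpa using lam_nat F hv)
  obtain ⟨j, hj⟩ := hint _ hFv
  have e2 : (F : ℝ) ^ 2 * NI b * ‖v‖ ^ 2 = j := by
    rw [← hj, norm_mul, Complex.norm_natCast]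
    ring
  -- the trace
  have htr : (NI b : ℝ) * (2 * (v - 1 / F).re) = ((2 * u.re + t * u.im : ℤ) : ℝ) := by
    have h3 : (NI b : ℂ) * (v - 1 / F) = toC u := by
      rw [eq_div_iff hN'] at hu
      rw [← hu]
      ring
    have h4 : (NI b : ℝ) * (v - 1 / F).re = (toC u).re := by
      rw [← h3, Complex.mul_re, Complex.natCast_re, Complex.natCast_im, zero_mul, sub_zero]
    have h5 : (toC u).re = u.re + u.im * (t / 2 : ℝ) := by
      rw [toC_apply, Complex.add_re, Complex.intCast_re, Complex.mul_re, Complex.intCast_re,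
        Complex.intCast_im, zero_mul, sub_zero]
      rfl
    have h6 : (NI b : ℝ) * (2 * (v - 1 / F).re) = 2 * ((NI b : ℝ) * (v - 1 / F).re) := by ring
    rw [h6, h4, h5]
    push_cast
    ring
  have e3 : (j : ℝ) = NI b + F * ((2 * u.re + t * u.im : ℤ) : ℝ) + F ^ 2 * j2 := by
    rw [← hj, e1, Par_norm, ← htr, ← h2, norm_one]
    ring
  have e4 : (j : ℤ) - NI b = F * (2 * u.re + t * u.im) + F ^ 2 * j2 := by
    have h7 : (j : ℤ) = NI b + F * (2 * u.re + t * u.im) + F ^ 2 * j2 := by exact_mod_cast e3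
    linarith
  refine ⟨j, ?_, e2⟩
  rintro l (⟨g, hg⟩ | ⟨ht, g, hg⟩)
  · refine ⟨g * (2 * u.re + t * u.im) + g * F * j2, ?_⟩
    rw [e4, hg]
    push_cast
    ring
  · obtain ⟨h, hh⟩ := hF2
    refine ⟨g * u.re + g * h * j2, ?_⟩
    have h8 : ((2 : ℤ) * F) = l * g := by exact_mod_cast hg
    have h9 : (F : ℤ) = 2 * h := by exact_mod_cast hh
    have ht' : (t : ℤ) = 0 := by exact_mod_cast ht
    rw [e4]
    linear_combination (u.re + h * j2) * h8 + (F : ℤ) * j2 * h9 + (F : ℤ) * u.im * ht'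

private theorem Par_Tc [SqN n t] (hL : S_Lt) (hR : S_Red) {F : ℕ} (hF : 0 < F) (hF2 : 2 ∣ F)
    {b : Ideal (OO n t)} (hb : b ≠ ⊥) {l : ℕ} (hl : 0 < l) (hd : Dvl t F l) (k : ℕ) (z : ℂ) :
    Tc F b 1 (k * (z + 1 / l)) = ex ((NI b * k : ℕ) / l) * Tc F b 1 (k * z) := by
  obtain ⟨-, -, R3, -⟩ := hR n t F b hF hb 1
  rw [R3, R3]
  unfold TT Pool.Agent.DK.C.TT
  rw [← tsum_mul_left]
  refine tsum_congr fun v => ?_
  obtain ⟨v, hv⟩ := v
  have hv' : v - 1 / F ∈ Lam b := by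
    have h : v - ((1 : ℤ) : ℂ) / F ∈ Lam b := hv
    rwa [Int.cast_one] at h
  obtain ⟨j, hj, hj2⟩ := Par_int hL hF hF2 hb hv'
  have e1 : (((F : ℝ) ^ 2 * (NI b : ℝ) : ℝ) : ℂ) * ((‖v‖ : ℝ) : ℂ) ^ 2 = (j : ℂ) := by
    exact_mod_cast congrArg (fun x : ℝ => (x : ℂ)) hj2
  have e2 : (((F : ℝ) ^ 2 * (NI b : ℝ) : ℝ) : ℂ) * ((‖v‖ : ℝ) : ℂ) ^ 2 * (k * (z + 1 / l)) =
      (((F : ℝ) ^ 2 * (NI b : ℝ) : ℝ) : ℂ) * ((‖v‖ : ℝ) : ℂ) ^ 2 * (k * z) +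
        ((j * k : ℕ) : ℂ) / l := by
    rw [e1]
    push_cast
    ring
  have h3 : (l : ℤ) ∣ ((j * k : ℕ) : ℤ) - ((NI b * k : ℕ) : ℤ) := by
    have h4 := (hj l hd).mul_right (k : ℤ)
    push_cast
    rwa [sub_mul] at h4
  change v⁻¹ * ex ((((F : ℝ) ^ 2 * (NI b : ℝ) : ℝ) : ℂ) * ((‖v‖ : ℝ) : ℂ) ^ 2 *
      (k * (z + 1 / l))) = ex ((NI b * k : ℕ) / l) *
        (v⁻¹ * ex ((((F : ℝ) ^ 2 * (NI b : ℝ) : ℝ) : ℂ) * ((‖v‖ : ℝ) : ℂ) ^ 2 * (k * z)))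
  rw [e2, Par_ex_add, Par_ex_mod hl h3]
  ring

theorem tPar (hL : S_Lt) (hR : S_Red) (hC : S_Cnd) : S_Par := by
  intro n t _ F m b hm hb
  obtain ⟨-, hmb, -, -, hNI, -⟩ := hC n t F m b hm hb
  have hF := hm.pos
  refine ⟨fun v hv => Par_int hL hF hm.two hmb hv, fun l hl hd z hz => ?_⟩
  have h1 := Par_Tc hL hR hF hm.two hmb hl hd 1 z
  rw [Nat.cast_one, one_mul, one_mul, mul_one] at h1
  have h2 := Par_Tc hL hR hF hm.two hb.ne hl hd (NI m) z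
  have e : NI b * NI m = NI (m * b) := by rw [hNI, mul_comm]
  rw [e] at h2
  unfold ThM
  rw [h1, h2]
  ring

end Pool.Agent.DS.C
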