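import Pool.Agent.Lib.DN.C.Spec
import Pool.Agent.Lib.DS.IfaceC

/-!
# Part C for all imaginary quadratic fields and the general modulus `F` (author helper33)

Every statement is an edit of the statement of the same name of `DN/C/Spec.lean`: `F` for `2 f`, `N` for `4 M`.
-/

set_option autoImplicit false

open Filter Topology
open scoped Pointwise

noncomputable section

namespace Pool.Agent.DS.C

open Pool.Agent.MuZ Pool.Agent.FW NumberField Pool.Agent.DN Pool.Agent.DN.C Pool.Agent.DS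
open Pool.Agent.DI (io ofC io_inj exists_io io_ofC ofC_io VP MP UP TP ex)

/-- **The consequences of the conditions.** -/
def S_Cnd : Prop := ∀ (n t : ℕ) [SqN n t] (F : ℕ) (m b : Ideal (OO n t)), FMg F m → FBg F b →
  30 ≤ F ∧ m * b ≠ ⊥ ∧ 0 < NI m ∧ 0 < NI b ∧ NI (m * b) = NI m * NI b ∧ Odd (NI m) ∧ Odd (NI b) ∧
  PrI m 15 ∧ G15 b ∧ PrI m 2 ∧ PrI b 2 ∧ PrI (m * b) F ∧ (NI (m * b)).Coprime F ∧
  FBg F (m * b) ∧ fr b ≠ 0 ∧ (1 / (F : ℕ) : ℂ) ∉ Lam (m * b)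

/-- **Transformation of `ThS` under `Γ_0(N)`.** -/
def S_TrS : Prop := ∀ (n t : ℕ) [SqN n t] (F N : ℕ) (m b : Ideal (OO n t)), FMg F m → FBg F b →
  IsLg F m {b} N → ∀ a b' c d : ℤ, G0 N a b' c d → ∀ (s : ℤ) (z : ℂ), 0 < z.im →
    ThS F m b s (mob a b' c d z) =
      eps n t d * ThS F m b (a * s) z + PhS F m b s a b' c d

/-- **Cusps of `ThS`.** -/
def S_CuS : Prop := ∀ (n t : ℕ) [SqN n t] (F N : ℕ) (m b : Ideal (OO n t)), FMg F m → FBg F b →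
  IsLg F m {b} N → ∀ a b' c d : ℤ, a * d - b' * c = 1 → ∀ s : ℤ,
    ∃ k0 : ℂ, HasE N (fun z => ThS F m b s (mob a b' c d z)) k0

/-- **The values `hS`.** -/
def S_Val : Prop := ∀ (n t : ℕ) [SqN n t] (F N : ℕ) (m b : Ideal (OO n t)), FMg F m → FBg F b →
  IsLg F m {b} N →
  (∀ (s : ℤ) (r : ℚ), Tendsto (fun y : ℝ => ThS F m b s (r + y * Complex.I)) (𝓝[>] 0)
    (𝓝 (hS F m b s r))) ∧
  ∀ a b' c d : ℤ, G0 N a b' c d → ∀ s : ℤ,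
    (∀ r : ℚ, (c : ℚ) * r + d ≠ 0 →
      hS F m b s (mobQ a b' c d r) =
        eps n t d * hS F m b (a * s) r + PhS F m b s a b' c d) ∧
    (d ≠ 0 → PhS F m b s a b' c d =
      hS F m b s (b' / d) - eps n t d * hS F m b (a * s) 0)

/-- **Homogeneity.** -/
def S_Hom : Prop := ∀ (n t : ℕ) [SqN n t] (F : ℕ), 0 < F → 2 ∣ F → 15 ∣ F →
  (∀ b : Ideal (OO n t), b ≠ ⊥ → ∀ (a : ℤ) (z : ℂ), a ≠ 0 →
    Tc F (sp (a : OO n t) * b) 1 z = a * Tc F b a z) ∧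
  (∀ b : Ideal (OO n t), b ≠ ⊥ → ∀ (α : OO n t) (z : ℂ), α ≠ 0 →
    ((F : ℕ) : OO n t) ∣ α - 1 → Tc F (sp α * b) 1 z = toC α * Tc F b 1 z) ∧
  (∀ m b : Ideal (OO n t), FMg F m → FBg F b → ∀ (a : ℤ) (z : ℂ), a ≠ 0 →
    IsCoprime a ((F : ℕ) : ℤ) → FBg F (sp (a : OO n t) * b) ∧
    ThS F m b a z = fr (sp (a : OO n t) * b) / (a * fr b) *
      ThM F m (sp (a : OO n t) * b) z) ∧
  ∀ m b : Ideal (OO n t), FMg F m → FBg F b → ∀ (α : OO n t) (z : ℂ), α ≠ 0 →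
    ((F : ℕ) : OO n t) ∣ α - 1 → ThM F m (sp α * b) z = ThM F m b z

/-- **Denominators** (`g ∈ Γ_0(N)`, `2 ≤ N`, `μ ∣ N`). -/
def S_Den : Prop := ∀ (N μ : ℕ) (a b' c d : ℤ), 2 ≤ N → μ ∣ N → G0 N a b' c d →
  a ≠ 0 ∧ d ≠ 0 ∧ IsCoprime a (N : ℤ) ∧ IsCoprime d (N : ℤ) ∧ (N : ℤ) ∣ a * d - 1 ∧
  (b' / d : ℚ).den.Coprime N ∧
  ∀ r : ℚ, r.den.Coprime μ → (c : ℚ) * r + d ≠ 0 → ((a * r + b') / (c * r + d) : ℚ).den.Coprime μ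

/-- **The limits.** -/
def S_C4a : Prop := ∀ (n t : ℕ) [SqN n t] (F : ℕ) (m b : Ideal (OO n t)), FMg F m → FBg F b →
  ∀ (c : ℤ) (q : ℕ), 0 < q → q.Coprime (NI m) → ∀ U : Finset ℂ, IsSys (sp (q : OO n t)) b U →
    (∀ u ∈ U, (qN m b (1 + (F : ℕ) * q * u) : ℝ) =
      (NI m : ℝ) * NI b * ‖1 + (F : ℕ) * q * u‖ ^ 2) ∧
    (∀ u ∈ U, 1 / ((F : ℕ) * q) + u ∉ Lam (m * b) ∧ Tor n t (1 / ((F : ℕ) * q) + u)) ∧
    Tendsto (fun y : ℝ => ThM F m b (((c / q : ℚ) : ℂ) + y * Complex.I)) (𝓝[>] 0)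
      (𝓝 ((q : ℂ)⁻¹ * ∑ u ∈ U, ex (c * qN m b (1 + (F : ℕ) * q * u) / q) *
        gC m b (1 / ((F : ℕ) * q) + u)))

/-- **The values are algebraic**, with the formula for every system. -/
def S_C4b : Prop :=
  ∀ (n t : ℕ) [SqN n t] (F : ℕ) (m b : Ideal (OO n t)), FMg F m → FBg F b → ∀ (c : ℤ) (q : ℕ), 0 < q →
    q.Coprime (NI m) →
    Tendsto (fun y : ℝ => ThM F m b (((c / q : ℚ) : ℂ) + y * Complex.I)) (𝓝[>] 0)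
      (𝓝 (hM F m b (c / q))) ∧
    io (etaM F m b (c / q)) = hM F m b (c / q) ∧
    ∀ U : Finset ℂ, IsSys (sp (q : OO n t)) b U →
      (∀ u ∈ U, (qN m b (1 + (F : ℕ) * q * u) : ℝ) =
        (NI m : ℝ) * NI b * ‖1 + (F : ℕ) * q * u‖ ^ 2) ∧
      etaM F m b (c / q) = (q : Om)⁻¹ *
        ∑ u ∈ U, zet q ^ (c * qN m b (1 + (F : ℕ) * q * u)) *
          gO m b (1 / ((F : ℕ) * q) + u)

/-- **The exponents modulo `l`**: for `v ∈ 1/F + Lam (m b)`: `F² N(m b) |v|²` is an integer congruent to `N(m b)` modulo `l`. -/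
def S_Par : Prop := ∀ (n t : ℕ) [SqN n t] (F : ℕ) (m b : Ideal (OO n t)), FMg F m → FBg F b →
  (∀ v : ℂ, v - 1 / (F : ℕ) ∈ Lam (m * b) →
    ∃ j : ℕ, (∀ l : ℕ, Dvl t F l → (l : ℤ) ∣ (j : ℤ) - NI (m * b)) ∧
      ((F : ℕ) : ℝ) ^ 2 * NI (m * b) * ‖v‖ ^ 2 = j) ∧
  ∀ l : ℕ, 0 < l → Dvl t F l → ∀ z : ℂ, 0 < z.im →
    ThM F m b (z + 1 / l) = ex (NI (m * b) / l) * ThM F m b z

/-- **The sets `vN`.** -/
def S_C7a : Prop := ∀ (n t : ℕ) [SqN n t] (F : ℕ) (m b : Ideal (OO n t)), FMg F m → FBg F b →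
  (∀ (j : ℕ) (v : ℂ), v ∈ vN F (m * b) j ↔
    v - 1 / (F : ℕ) ∈ Lam (m * b) ∧ ((F : ℕ) : ℝ) ^ 2 * NI (m * b) * ‖v‖ ^ 2 = j) ∧
  ∃ C : ℝ, ∀ j : ℕ, ‖cM F m b j‖ ≤ C * (j + 1) ^ 2

/-- **The coefficients are algebraic and divisible by `F`.** -/
def S_C7b : Prop := ∀ (n t : ℕ) [SqN n t] (F : ℕ) (m b : Ideal (OO n t)), FMg F m → FBg F b →
  ∀ j : ℕ, io (ofC (cM F m b j)) = cM F m b j ∧
    ∀ P : Ideal ZZ, Npr P → MP P (F : Om) → TP P (F : Om) (ofC (cM F m b j))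

end Pool.Agent.DS.C
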